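import Pool.Agent.H25.CN.Cnt

/-!
# H25 CN, Bdo: bounded orbits (CCC (3.8))

`bdo`: `T` symmetric, `1 ∈ T`; if the products of `2 * n` elements of `T` fix or cross every half-space of the region between `y` and
`t • y`, `t ∈ T`, then the group generated by `T` has a bounded orbit, so it has at most `N` elements. The sets `T ^ i • w`, `i ≤ n`, consist
of pairwise crossing half-spaces, so two consecutive ones are equal, so the orbit of `w` under the group is finite.
-/

set_option autoImplicit false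

namespace Pool.Agent.H25.CN

open Pool.Agent.H37.CC
open scoped Pointwise

variable {G H : Type} [Group G] [PartialOrder H] [Bas H] [MulAction G H] [BAct G H]

theorem ds_tri {H : Type} [PartialOrder H] [Bas H] (y z u : Vtx H) : ds y u ≤ ds y z + ds z u := by
  unfold ds
  refine le_trans (Set.ncard_le_ncard ?_ ((diff_fin y z).union (diff_fin z u))) (Set.ncard_union_le _ _)
  rintro h ⟨h1, h2⟩
  by_cases h3 : h ∈ z.U
  · exact Or.inl ⟨h3, h2⟩
  · exact Or.inr ⟨h1, h3⟩

theorem ds_smul (g : G) (y z : Vtx H) : ds (g • y) (g • z) = ds y z := by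
  unfold ds
  have e : (g • z).U \ (g • y).U = (fun h : H => g • h) '' (z.U \ y.U) := by
    ext h
    constructor
    · rintro ⟨h1, h2⟩
      exact ⟨g⁻¹ • h, ⟨h1, h2⟩, smul_inv_smul g h⟩
    · rintro ⟨h', ⟨h1, h2⟩, rfl⟩
      exact ⟨smul_mem_smul.2 h1, fun h3 => h2 (smul_mem_smul.1 h3)⟩
  rw [e]
  exact Set.ncard_image_of_injective _ (MulAction.injective g)

theorem spt_smul {g : G} {w : H} {y z : Vtx H} : Spt (g • w) (g • y) (g • z) ↔ Spt w y z := by
  unfold Spt
  rw [smul_mem_smul, smul_mem_smul]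

theorem crs_smul {g : G} {h k : H} (hc : Crs h k) : Crs (g • h) (g • k) := by
  obtain ⟨h1, h2, h3, h4⟩ := hc
  refine ⟨fun e => h1 (smul_le.1 e), fun e => h2 (smul_le.1 e), fun e => h3 ?_, fun e => h4 ?_⟩
  · rw [← smul_st] at e
    exact smul_le.1 e
  · rw [← smul_st] at e
    exact smul_le.1 e

/-- pairwise crossing families have at most `n` members -/
theorem crs_encard {H : Type} [PartialOrder H] [Bas H] {n : ℕ} (hd : Dim H n) {A : Set H}
    (hA : ∀ h ∈ A, ∀ k ∈ A, h ≠ k → Crs h k) : A.encard ≤ n := by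
  by_contra hcon
  push Not at hcon
  have h1 : ((n + 1 : ℕ) : ℕ∞) ≤ A.encard := by
    push_cast
    exact Order.add_one_le_of_lt hcon
  obtain ⟨t, ht, hc⟩ := Set.exists_subset_encard_eq h1
  have hf : t.Finite := Set.finite_of_encard_eq_coe hc
  obtain ⟨F, rfl⟩ := hf.exists_finset_coe
  have h2 := hd F fun h hh k hk hne => hA h (ht hh) k (ht hk) hne
  rw [Set.encard_coe_eq_coe_finsetCard] at hc
  have h3 : F.card = n + 1 := by exact_mod_cast hc
  omega

/-- the orbit of one half-space -/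
theorem orbit_fin {n : ℕ} (hd : Dim H n) {T : Set G} (h1 : (1 : G) ∈ T) (hi : ∀ t ∈ T, t⁻¹ ∈ T) {w : H}
    (hc : ∀ γ ∈ T ^ (2 * n), γ • w = w ∨ Crs w (γ • w)) :
    {k : H | ∃ γ ∈ Subgroup.closure T, k = γ • w}.Finite := by
  have hTi : T⁻¹ = T := by
    ext t
    rw [Set.mem_inv]
    exact ⟨fun h => by have := hi _ h; rwa [inv_inv] at this, fun h => hi _ h⟩
  have hmono : ∀ {i j : ℕ}, i ≤ j → T ^ i ⊆ T ^ j := fun h => Set.pow_subset_pow_right h1 h
  set A : ℕ → Set H := fun i => {k | ∃ γ ∈ T ^ i, k = γ • w} with hAdef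
  have hAm : ∀ i, A i ⊆ A (i + 1) := by
    rintro i k ⟨γ, hγ, rfl⟩
    exact ⟨γ, hmono (Nat.le_succ i) hγ, rfl⟩
  have hpair : ∀ i ≤ n, ∀ h ∈ A i, ∀ k ∈ A i, h ≠ k → Crs h k := by
    rintro i hin _ ⟨γ, hγ, rfl⟩ _ ⟨γ', hγ', rfl⟩ hne
    have hγi : γ⁻¹ ∈ T ^ i := by
      rw [← hTi, inv_pow, Set.mem_inv, inv_inv]
      exact hγ
    have h2 : γ⁻¹ * γ' ∈ T ^ (2 * n) := by
      refine hmono (show i + i ≤ 2 * n by omega) ?_
      rw [pow_add]
      exact Set.mul_mem_mul hγi hγ'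
    have e : γ' • w = γ • ((γ⁻¹ * γ') • w) := by rw [smul_smul, mul_inv_cancel_left]
    rcases hc _ h2 with h3 | h3
    · rw [h3] at e
      exact absurd e.symm hne
    · rw [e]
      exact crs_smul h3
  have hcard : ∀ i ≤ n, (A i).encard ≤ n := fun i hin => crs_encard hd (hpair i hin)
  have hfin : ∀ i ≤ n, (A i).Finite := fun i hin => Set.finite_of_encard_le_coe (hcard i hin)
  have hw : ∀ i, w ∈ A i := fun i => ⟨1, hmono (Nat.zero_le i) (by rw [pow_zero]; exact Set.one_mem_one), (one_smul _ _).symm⟩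
  obtain ⟨i, hin, hA⟩ : ∃ i, i < n ∧ A i = A (i + 1) := by
    by_contra hcon
    push Not at hcon
    have key : ∀ i ≤ n, i + 1 ≤ (A i).ncard := by
      intro i
      induction i with
      | zero =>
        intro h0
        have := (Set.ncard_pos (hfin 0 h0)).2 ⟨w, hw 0⟩
        omega
      | succ i ih =>
        intro h0
        have h2 := ih (by omega)
        have h3 : (A i).ncard < (A (i + 1)).ncard :=
          Set.ncard_lt_ncard (lt_of_le_of_ne (hAm i) (hcon i (by omega))) (hfin (i + 1) h0)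
        omega
    have h4 := key n le_rfl
    have h5 : (A n).ncard ≤ n := by
      have := hcard n le_rfl
      rw [← (hfin n le_rfl).cast_ncard_eq] at this
      exact_mod_cast this
    omega
  have hst : Subgroup.closure T ≤ MulAction.stabilizer G (A i) := by
    rw [Subgroup.closure_le]
    have hsub : ∀ t ∈ T, t • A i ⊆ A i := by
      rintro t ht _ ⟨k, ⟨γ, hγ, rfl⟩, rfl⟩
      have h2 : t • γ • w ∈ A (i + 1) := ⟨t * γ, by rw [pow_succ']; exact Set.mul_mem_mul ht hγ, (mul_smul t γ w).symm⟩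
      rw [hA]
      exact h2
    intro t ht
    rw [SetLike.mem_coe, MulAction.mem_stabilizer_iff]
    refine Set.Subset.antisymm (hsub t ht) ?_
    intro k hk
    have h2 : t⁻¹ • k ∈ A i := hsub t⁻¹ (hi t ht) (Set.smul_mem_smul_set hk)
    exact Set.mem_smul_set_iff_inv_smul_mem.2 h2
  refine (hfin i hin.le).subset ?_
  rintro _ ⟨γ, hγ, rfl⟩
  have h2 := MulAction.mem_stabilizer_iff.1 (hst hγ)
  rw [← h2]
  exact Set.smul_mem_smul_set (hw i)

/-- (3.8) -/
theorem bdo {P : Set (Vtx H) × Set H} (hP : Rgn P) {n N : ℕ} (hd : Dim H n) (hN : BF G H N) {y : Vtx H} (hy : y ∈ P.1)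
    {T : Set G} (h1 : (1 : G) ∈ T) (hi : ∀ t ∈ T, t⁻¹ ∈ T) (hT : ∀ t ∈ T, t • y ∈ P.1)
    (hc : ∀ w ∈ P.2, (∃ t ∈ T, Spt w y (t • y)) → ∀ γ ∈ T ^ (2 * n), γ • w = w ∨ Crs w (γ • w)) :
    ((Subgroup.closure T : Subgroup G) : Set G).encard ≤ N := by
  set L : Set H := {w | w ∈ P.2 ∧ ∃ t ∈ T, Spt w y (t • y)} with hL
  have hLf : L.Finite := hP.fin2.subset fun w hw => hw.1
  set F : Set H := ⋃ w ∈ L, ({k : H | ∃ γ ∈ Subgroup.closure T, k = γ • w} ∪
    st '' {k : H | ∃ γ ∈ Subgroup.closure T, k = γ • w}) with hF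
  have hFf : F.Finite := by
    refine hLf.biUnion fun w hw => ?_
    have h2 := orbit_fin hd h1 hi (hc w hw.1 hw.2)
    exact h2.union (h2.image _)
  have hmem : ∀ h, h ∈ F ↔ ∃ w ∈ L, ∃ γ ∈ Subgroup.closure T, h = γ • w ∨ h = st (γ • w) := by
    intro h
    rw [hF]
    simp only [Set.mem_iUnion, Set.mem_union, Set.mem_image, exists_prop]
    constructor
    · rintro ⟨w, hw, ⟨γ, hγ, rfl⟩ | ⟨_, ⟨γ, hγ, rfl⟩, rfl⟩⟩
      · exact ⟨w, hw, γ, hγ, Or.inl rfl⟩
      · exact ⟨w, hw, γ, hγ, Or.inr rfl⟩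
    · rintro ⟨w, hw, γ, hγ, rfl | rfl⟩
      · exact ⟨w, hw, Or.inl ⟨γ, hγ, rfl⟩⟩
      · exact ⟨w, hw, Or.inr ⟨_, ⟨γ, hγ, rfl⟩, rfl⟩⟩
  have hFi : ∀ γ ∈ Subgroup.closure T, ∀ h ∈ F, γ • h ∈ F := by
    intro γ hγ h hh
    rw [hmem] at hh ⊢
    obtain ⟨w, hw, γ', hγ', h2⟩ := hh
    refine ⟨w, hw, γ * γ', mul_mem hγ hγ', ?_⟩
    rcases h2 with rfl | rfl
    · left
      rw [mul_smul]
    · right
      rw [smul_st, mul_smul]
  have key : ∀ γ ∈ Subgroup.closure T, ∀ h : H, Spt h y (γ • y) → h ∈ F := by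
    intro γ hγ
    induction hγ using Subgroup.closure_induction with
    | mem t ht =>
      intro h hh
      rw [hmem]
      have h2 : h ∈ P.2 ∨ st h ∈ P.2 := by
        by_cases h3 : h ∈ y.U
        · refine hP.sep y hy (t • y) (hT t ht) h h3 fun h4 => hh ?_
          exact ⟨fun _ => h4, fun _ => h3⟩
        · refine hP.sep (t • y) (hT t ht) y hy h ?_ h3
          by_contra h4
          exact hh ⟨fun h5 => absurd h5 h3, fun h5 => absurd h5 h4⟩
      rcases h2 with h2 | h2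
      · exact ⟨h, ⟨h2, t, ht, hh⟩, 1, one_mem _, Or.inl (one_smul _ _).symm⟩
      · refine ⟨st h, ⟨h2, t, ht, ?_⟩, 1, one_mem _, Or.inr ?_⟩
        · unfold Spt
          rw [y.st_mem, (t • y).st_mem, not_iff_not]
          exact hh
        · rw [one_smul, st_st]
    | one =>
      intro h hh
      rw [one_smul] at hh
      exact absurd Iff.rfl hh
    | mul γ γ' hγ hγ' ih ih' =>
      intro h hh
      by_cases h2 : Spt h y (γ • y)
      · exact ih h h2
      · have h3 : Spt h (γ • y) ((γ * γ') • y) := by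
          unfold Spt at hh h2 ⊢
          rw [not_not] at h2
          rwa [← h2]
        have h4 : Spt (γ⁻¹ • h) y (γ' • y) := by
          rw [← spt_smul (g := γ), smul_inv_smul, smul_smul]
          exact h3
        have h5 := hFi γ hγ _ (ih' _ h4)
        rwa [smul_inv_smul] at h5
    | inv γ hγ ih =>
      intro h hh
      have h3 : Spt (γ • h) y (γ • y) := by
        rw [← spt_smul (g := γ), smul_inv_smul] at hh
        exact fun e => hh e.symm
      have h5 := hFi γ⁻¹ (inv_mem hγ) _ (ih _ h3)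
      rwa [inv_smul_smul] at h5
  refine hN _ ⟨ds bs y + F.ncard + ds y bs, fun γ hγ => ?_⟩
  have h2 : ds y (γ • y) ≤ F.ncard := by
    refine Set.ncard_le_ncard ?_ hFf
    rintro h ⟨h3, h4⟩
    exact key γ hγ h fun e => h4 (e.2 h3)
  have h3 := ds_tri (bs : Vtx H) y (γ • bs)
  have h4 := ds_tri y (γ • y) (γ • bs)
  rw [ds_smul] at h4
  omega

end Pool.Agent.H25.CN
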