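import Pool.Agent.H25.CN.Wrd
import Pool.Agent.H37.CD.Fix

/-!
# H25 CN, Bdo2: bounded orbits, quantitative (CCA (3.8))

`orbit_crs`: if the products of `2 * n` elements of the symmetric set `T` fix or cross `w` then so do all elements of the group generated by
`T`. `bdo2`: the orbit of `y` is bounded by `2 * n * #L`, `L` the half-spaces of the region between `y` and `t • y`, `t ∈ T`. `lx_of_lt`: elements
which make a half-space smaller have unbounded orbits. `spt_card`: the number of half-spaces of the region between two vertices.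
-/

set_option autoImplicit false

namespace Pool.Agent.H25.CN

open Pool.Agent.H37.CC Pool.Agent.H37.CD
open scoped Pointwise

variable {G H : Type} [Group G] [PartialOrder H] [Bas H] [MulAction G H] [BAct G H]

theorem crs_st {H : Type} [PartialOrder H] [Bas H] {h k : H} (hc : Crs (st h) (st k)) : Crs h k := by
  obtain ⟨h1, h2, h3, h4⟩ := hc
  rw [st_st] at h3 h4
  exact ⟨fun e => h2 (st_le e), fun e => h1 (st_le e), fun e => h4 (le_st_comm.1 e), fun e => h3 (st_le_comm.1 e)⟩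

theorem ell_of {B : Subgroup G} {y : Vtx H} {M : ℕ} (h : ∀ b ∈ B, ds y (b • y) ≤ M) : Ell H B := by
  refine ⟨ds bs y + M + ds y bs, fun b hb => ?_⟩
  have h3 := ds_tri (bs : Vtx H) y (b • bs)
  have h4 := ds_tri y (b • y) (b • bs)
  rw [Pool.Agent.H25.CN.ds_smul] at h4
  have h5 := h b hb
  omega

/-- the orbit of one half-space -/
theorem orbit_crs {n : ℕ} (hd : Dim H n) {T : Set G} (h1 : (1 : G) ∈ T) (hi : ∀ t ∈ T, t⁻¹ ∈ T) {w : H}
    (hc : ∀ γ ∈ T ^ (2 * n), γ • w = w ∨ Crs w (γ • w)) :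
    ∀ γ ∈ Subgroup.closure T, γ • w = w ∨ Crs w (γ • w) := by
  have hTi : T⁻¹ = T := by
    ext t
    rw [Set.mem_inv]
    exact ⟨fun h => by have := hi _ h; rwa [inv_inv] at this, fun h => hi _ h⟩
  have hmono : ∀ {i j : ℕ}, i ≤ j → T ^ i ⊆ T ^ j := fun h => Set.pow_subset_pow_right h1 h
  set A : ℕ → Set H := fun i => {k | ∃ γ ∈ T ^ i, k = γ • w} with hAdef
  have hAm : ∀ i, A i ⊆ A (i + 1) := by
    rintro i k ⟨γ, hγ, rfl⟩
    exact ⟨γ, hmono (Nat.le_succ i) hγ, rfl⟩
  have hpair : ∀ i ≤ n, ∀ h ∈ A i, ∀ k ∈ A i, h ≠ k → Crs h k := by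
    rintro i hin _ ⟨γ, hγ, rfl⟩ _ ⟨γ', hγ', rfl⟩ hne
    have hγi : γ⁻¹ ∈ T ^ i := by
      rw [← hTi, inv_pow, Set.mem_inv, inv_inv]
      exact hγ
    have h2 : γ⁻¹ * γ' ∈ T ^ (2 * n) := by
      refine hmono (show i + i ≤ 2 * n by omega) ?_
      rw [pow_add]
      exact Set.mul_mem_mul hγi hγ'
    have e : γ' • w = γ • ((γ⁻¹ * γ') • w) := by rw [smul_smul, mul_inv_cancel_left]
    rcases hc _ h2 with h3 | h3
    · rw [h3] at e
      exact absurd e.symm hne
    · rw [e]
      exact crs_smul h3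
  have hcard : ∀ i ≤ n, (A i).encard ≤ n := fun i hin => crs_encard hd (hpair i hin)
  have hfin : ∀ i ≤ n, (A i).Finite := fun i hin => Set.finite_of_encard_le_coe (hcard i hin)
  have hw : ∀ i, w ∈ A i := fun i => ⟨1, hmono (Nat.zero_le i) (by rw [pow_zero]; exact Set.one_mem_one), (one_smul _ _).symm⟩
  obtain ⟨i, hin, hA⟩ : ∃ i, i < n ∧ A i = A (i + 1) := by
    by_contra hcon
    push Not at hcon
    have key : ∀ i ≤ n, i + 1 ≤ (A i).ncard := by
      intro i
      induction i with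
      | zero =>
        intro h0
        have := (Set.ncard_pos (hfin 0 h0)).2 ⟨w, hw 0⟩
        omega
      | succ i ih =>
        intro h0
        have h2 := ih (by omega)
        have h3 : (A i).ncard < (A (i + 1)).ncard :=
          Set.ncard_lt_ncard (lt_of_le_of_ne (hAm i) (hcon i (by omega))) (hfin (i + 1) h0)
        omega
    have h4 := key n le_rfl
    have h5 : (A n).ncard ≤ n := by
      have := hcard n le_rfl
      rw [← (hfin n le_rfl).cast_ncard_eq] at this
      exact_mod_cast this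
    omega
  have hst : Subgroup.closure T ≤ MulAction.stabilizer G (A i) := by
    rw [Subgroup.closure_le]
    have hsub : ∀ t ∈ T, t • A i ⊆ A i := by
      rintro t ht _ ⟨k, ⟨γ, hγ, rfl⟩, rfl⟩
      have h2 : t • γ • w ∈ A (i + 1) := ⟨t * γ, by rw [pow_succ']; exact Set.mul_mem_mul ht hγ, (mul_smul t γ w).symm⟩
      rw [hA]
      exact h2
    intro t ht
    rw [SetLike.mem_coe, MulAction.mem_stabilizer_iff]
    refine Set.Subset.antisymm (hsub t ht) ?_
    intro k hk
    have h2 : t⁻¹ • k ∈ A i := hsub t⁻¹ (hi t ht) (Set.smul_mem_smul_set hk)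
    exact Set.mem_smul_set_iff_inv_smul_mem.2 h2
  intro γ hγ
  have h2 := MulAction.mem_stabilizer_iff.1 (hst hγ)
  have h3 : γ • w ∈ A i := by
    rw [← h2]
    exact Set.smul_mem_smul_set (hw i)
  by_cases h4 : γ • w = w
  · exact Or.inl h4
  · exact Or.inr (hpair i hin.le _ (hw i) _ h3 (Ne.symm h4))

theorem orbit_card {n : ℕ} (hd : Dim H n) {B : Subgroup G} {w : H} (hc : ∀ γ ∈ B, γ • w = w ∨ Crs w (γ • w)) :
    {k : H | ∃ γ ∈ B, k = γ • w}.encard ≤ n := by
  refine crs_encard hd ?_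
  rintro _ ⟨γ, hγ, rfl⟩ _ ⟨γ', hγ', rfl⟩ hne
  have e : γ' • w = γ • ((γ⁻¹ * γ') • w) := by rw [smul_smul, mul_inv_cancel_left]
  rcases hc _ (mul_mem (inv_mem hγ) hγ') with h3 | h3
  · rw [h3] at e
    exact absurd e.symm hne
  · rw [e]
    exact crs_smul h3

/-- (3.8) with the bound -/
theorem bdo2 {P : Set (Vtx H) × Set H} (hP : Rgn P) {n : ℕ} (hd : Dim H n) {y : Vtx H} (hy : y ∈ P.1)
    {T : Set G} (h1 : (1 : G) ∈ T) (hi : ∀ t ∈ T, t⁻¹ ∈ T) (hT : ∀ t ∈ T, t • y ∈ P.1)
    (hc : ∀ w ∈ P.2, (∃ t ∈ T, Spt w y (t • y)) → ∀ γ ∈ T ^ (2 * n), γ • w = w ∨ Crs w (γ • w)) :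
    ∀ γ ∈ Subgroup.closure T, ds y (γ • y) ≤ 2 * n * {w | w ∈ P.2 ∧ ∃ t ∈ T, Spt w y (t • y)}.ncard := by
  classical
  set L : Set H := {w | w ∈ P.2 ∧ ∃ t ∈ T, Spt w y (t • y)} with hL
  have hLf : L.Finite := hP.fin2.subset fun w hw => hw.1
  have hO : ∀ w : L, {k : H | ∃ γ ∈ Subgroup.closure T, k = γ • (w : H)}.encard ≤ n := fun w =>
    orbit_card hd (orbit_crs hd h1 hi (hc w w.2.1 w.2.2))
  have hOf : ∀ w : L, {k : H | ∃ γ ∈ Subgroup.closure T, k = γ • (w : H)}.Finite := fun w =>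
    Set.finite_of_encard_le_coe (hO w)
  have hFin : Fintype L := hLf.fintype
  set F : Finset H := (Finset.univ : Finset L).biUnion fun w => (hOf w).toFinset ∪ (hOf w).toFinset.image st with hF
  have hFc : F.card ≤ 2 * n * L.ncard := by
    have h2 : F.card ≤ (Finset.univ : Finset L).card * (2 * n) := by
      refine Finset.card_biUnion_le_card_mul _ _ _ fun w _ => ?_
      have h3 : (hOf w).toFinset.card ≤ n := by
        have h4 := hO w
        rw [← (hOf w).cast_ncard_eq] at h4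
        rw [← Set.ncard_eq_toFinset_card _ (hOf w)]
        exact_mod_cast h4
      refine (Finset.card_union_le _ _).trans ?_
      have h4 := Finset.card_image_le (s := (hOf w).toFinset) (f := (st : H → H))
      omega
    have h5 : (Finset.univ : Finset L).card = L.ncard := by
      rw [Finset.card_univ, ← Nat.card_eq_fintype_card]
      rfl
    rw [h5, mul_comm] at h2
    exact h2
  have hmem : ∀ h, h ∈ F ↔ ∃ w ∈ L, ∃ γ ∈ Subgroup.closure T, h = γ • w ∨ h = st (γ • w) := by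
    intro h
    rw [hF, Finset.mem_biUnion]
    constructor
    · rintro ⟨w, -, hw⟩
      rcases Finset.mem_union.1 hw with h2 | h2
      · obtain ⟨γ, hγ, h3⟩ := (Set.Finite.mem_toFinset _).1 h2
        exact ⟨w, w.2, γ, hγ, Or.inl h3⟩
      · obtain ⟨k, hk, rfl⟩ := Finset.mem_image.1 h2
        obtain ⟨γ, hγ, h3⟩ := (Set.Finite.mem_toFinset _).1 hk
        exact ⟨w, w.2, γ, hγ, Or.inr (by rw [h3])⟩
    · rintro ⟨w, hw, γ, hγ, h2 | h2⟩
      · exact ⟨⟨w, hw⟩, Finset.mem_univ _, Finset.mem_union.2 (Or.inl ((Set.Finite.mem_toFinset _).2 ⟨γ, hγ, h2⟩))⟩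
      · exact ⟨⟨w, hw⟩, Finset.mem_univ _, Finset.mem_union.2 (Or.inr (Finset.mem_image.2
          ⟨γ • w, (Set.Finite.mem_toFinset _).2 ⟨γ, hγ, rfl⟩, h2.symm⟩))⟩
  have hFi : ∀ γ ∈ Subgroup.closure T, ∀ h ∈ F, γ • h ∈ F := by
    intro γ hγ h hh
    rw [hmem] at hh ⊢
    obtain ⟨w, hw, γ', hγ', h2⟩ := hh
    refine ⟨w, hw, γ * γ', mul_mem hγ hγ', ?_⟩
    rcases h2 with rfl | rfl
    · left
      rw [mul_smul]
    · right
      rw [smul_st, mul_smul]
  have key : ∀ γ ∈ Subgroup.closure T, ∀ h : H, Spt h y (γ • y) → h ∈ F := by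
    intro γ hγ
    induction hγ using Subgroup.closure_induction with
    | mem t ht =>
      intro h hh
      rw [hmem]
      have h2 : h ∈ P.2 ∨ st h ∈ P.2 := by
        by_cases h3 : h ∈ y.U
        · refine hP.sep y hy (t • y) (hT t ht) h h3 fun h4 => hh ?_
          exact ⟨fun _ => h4, fun _ => h3⟩
        · refine hP.sep (t • y) (hT t ht) y hy h ?_ h3
          by_contra h4
          exact hh ⟨fun h5 => absurd h5 h3, fun h5 => absurd h5 h4⟩
      rcases h2 with h2 | h2
      · exact ⟨h, ⟨h2, t, ht, hh⟩, 1, one_mem _, Or.inl (one_smul _ _).symm⟩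
      · refine ⟨st h, ⟨h2, t, ht, ?_⟩, 1, one_mem _, Or.inr ?_⟩
        · unfold Spt
          rw [y.st_mem, (t • y).st_mem, not_iff_not]
          exact hh
        · rw [one_smul, st_st]
    | one =>
      intro h hh
      rw [one_smul] at hh
      exact absurd Iff.rfl hh
    | mul γ γ' hγ hγ' ih ih' =>
      intro h hh
      by_cases h2 : Spt h y (γ • y)
      · exact ih h h2
      · have h3 : Spt h (γ • y) ((γ * γ') • y) := by
          unfold Spt at hh h2 ⊢
          rw [not_not] at h2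
          rwa [← h2]
        have h4 : Spt (γ⁻¹ • h) y (γ' • y) := by
          rw [← spt_smul (g := γ), smul_inv_smul, smul_smul]
          exact h3
        have h5 := hFi γ hγ _ (ih' _ h4)
        rwa [smul_inv_smul] at h5
    | inv γ hγ ih =>
      intro h hh
      have h3 : Spt (γ • h) y (γ • y) := by
        rw [← spt_smul (g := γ), smul_inv_smul] at hh
        exact fun e => hh e.symm
      have h5 := hFi γ⁻¹ (inv_mem hγ) _ (ih _ h3)
      rwa [inv_smul_smul] at h5
  intro γ hγ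
  refine le_trans ?_ hFc
  rw [← Set.ncard_coe_finset]
  refine Set.ncard_le_ncard ?_ F.finite_toSet
  rintro h ⟨h3, h4⟩
  exact key γ hγ h fun e => h4 (e.2 h3)

/-- the number of half-spaces of a region between two vertices -/
theorem spt_card {H : Type} [PartialOrder H] [Bas H] {P : Set (Vtx H) × Set H} (hP : Rgn P) (y z : Vtx H) :
    {w | w ∈ P.2 ∧ Spt w y z}.ncard ≤ ds y z := by
  classical
  unfold ds
  refine Set.ncard_le_ncard_of_injOn (fun w => if w ∈ y.U then st w else w) ?_ ?_ (diff_fin y z)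
  · rintro w ⟨-, hs⟩
    show (if w ∈ y.U then st w else w) ∈ z.U \ y.U
    by_cases h1 : w ∈ y.U
    · rw [if_pos h1]
      refine ⟨?_, ?_⟩
      · rw [z.st_mem]
        exact fun h2 => hs ⟨fun _ => h2, fun _ => h1⟩
      · rw [y.st_mem, not_not]
        exact h1
    · rw [if_neg h1]
      refine ⟨?_, h1⟩
      by_contra h2
      exact hs ⟨fun h3 => absurd h3 h1, fun h3 => absurd h3 h2⟩
  · rintro w ⟨hw, -⟩ w' ⟨hw', -⟩ h
    have h' : (if w ∈ y.U then st w else w) = (if w' ∈ y.U then st w' else w') := h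
    by_cases h1 : w ∈ y.U <;> by_cases h2 : w' ∈ y.U
    · rw [if_pos h1, if_pos h2] at h'
      exact st_inj h'
    · rw [if_pos h1, if_neg h2] at h'
      refine absurd ?_ (hP.nf _ hw' _ hw).1
      rw [h']
    · rw [if_neg h1, if_pos h2] at h'
      refine absurd ?_ (hP.nf _ hw _ hw').1
      rw [h']
    · rwa [if_neg h1, if_neg h2] at h'

/-- elements which make a half-space smaller have unbounded orbits -/
theorem lx_of_lt {g : G} {w : H} (h : g • w < w) : Lx H g := by
  rintro ⟨M, hM⟩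
  obtain ⟨i, hi⟩ := exists_inv_mem h (bs : Vtx H)
  obtain ⟨i', hi'⟩ := exists_notMem h (bs : Vtx H)
  have h1 : StrictAnti fun j : ℕ => g ^ j • w := by
    refine strictAnti_nat_of_succ_lt fun j => ?_
    show g ^ (j + 1) • w < g ^ j • w
    rw [pow_succ, mul_smul, smul_lt]
    exact h
  have h2 : (fun j : ℕ => g ^ (i' + j) • w) '' (Finset.range (M + 1) : Set ℕ) ⊆
      ((g ^ (i + i' + M)) • (bs : Vtx H)).U \ (bs : Vtx H).U := by
    intro k hk
    obtain ⟨j, hj, rfl⟩ := hk
    have hj' := Finset.mem_range.1 (Finset.mem_coe.1 hj)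
    refine ⟨?_, fun h3 => hi' (Vtx.up _ h3 (h1.antitone (Nat.le_add_right i' j)))⟩
    show g ^ (i' + j) • w ∈ ((g ^ (i + i' + M)) • (bs : Vtx H)).U
    obtain ⟨e, he⟩ : ∃ e, i + i' + M = (i' + j) + (i + e) := ⟨M - j, by omega⟩
    rw [he, pow_add g (i' + j) (i + e), mul_smul, smul_mem_smul, mem_smul, ← inv_pow]
    refine Vtx.up _ hi ?_
    rw [pow_add, mul_smul, smul_le]
    rcases Nat.eq_zero_or_pos e with h0 | h0
    · rw [h0, pow_zero, one_smul]
    · exact (gt_pow (lt_inv_iff.2 h) h0).le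
  have h3 := Set.ncard_le_ncard h2 (diff_fin _ _)
  rw [Set.InjOn.ncard_image, Set.ncard_coe_finset, Finset.card_range] at h3
  · have h4 := hM (g ^ (i + i' + M)) (Subgroup.pow_mem _ (Subgroup.mem_zpowers g) _)
    have h5 : ds (bs : Vtx H) (g ^ (i + i' + M) • bs) = (((g ^ (i + i' + M)) • (bs : Vtx H)).U \ (bs : Vtx H).U).ncard := rfl
    omega
  · intro a _ b _ hab
    have := h1.injective hab
    omega

end Pool.Agent.H25.CN
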