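import Pool.Agent.H25.CN.Typ

/-!
# H25 CN, Cnt: counting half-spaces (CCC (3.5), (3.6))

`cnt U g y`: the number of the `w ∈ U` with `g • w < w` which contain `y`; `nu U g y z = cnt U g z - cnt U g y`. `nu_eq`: the signed number
of half-spaces between `y` and `z`. `nu_map`: invariance under an `x` which keeps `U` and the types of the half-spaces between `y` and `z`.
`nu_pos`: if `g • w < w` for some `w ∈ U` then `0 < nu U g y (g • y)`.
-/

set_option autoImplicit false

namespace Pool.Agent.H25.CN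

open Pool.Agent.H37.CC

variable {G H : Type} [Group G] [PartialOrder H] [Bas H] [MulAction G H] [BAct G H]

/-- the number of the half-spaces in `U` which become smaller and contain `y` -/
noncomputable def cnt (U : Set H) (g : G) (y : Vtx H) : ℕ := {w | w ∈ U ∧ g • w < w ∧ w ∈ y.U}.ncard

/-- the signed number of half-spaces between `y` and `z` -/
noncomputable def nu (U : Set H) (g : G) (y z : Vtx H) : ℤ := (cnt U g z : ℤ) - cnt U g y

theorem nu_self (U : Set H) (g : G) (y : Vtx H) : nu U g y y = 0 := sub_self _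

theorem nu_add (U : Set H) (g : G) (y z u : Vtx H) : nu U g y z + nu U g z u = nu U g y u := by
  unfold nu
  ring

theorem nu_symm (U : Set H) (g : G) (y z : Vtx H) : nu U g z y = - nu U g y z := by
  unfold nu
  ring

/-- the positive half-spaces between `y` and `z` -/
def Ps (U : Set H) (g : G) (y z : Vtx H) : Set H := {w | w ∈ U ∧ g • w < w ∧ w ∉ y.U ∧ w ∈ z.U}

theorem nu_eq {U : Set H} (hU : U.Finite) (g : G) (y z : Vtx H) :
    nu U g y z = ((Ps U g y z).ncard : ℤ) - (Ps U g z y).ncard := by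
  have key : ∀ a b : Vtx H, (cnt U g b : ℤ) = ({w | w ∈ U ∧ g • w < w ∧ w ∈ a.U ∧ w ∈ b.U}.ncard : ℤ) + (Ps U g a b).ncard := by
    intro a b
    have h1 := Set.ncard_inter_add_ncard_sdiff_eq_ncard {w | w ∈ U ∧ g • w < w ∧ w ∈ b.U} a.U
      (hU.subset fun w hw => hw.1)
    have e1 : {w | w ∈ U ∧ g • w < w ∧ w ∈ b.U} ∩ a.U = {w | w ∈ U ∧ g • w < w ∧ w ∈ a.U ∧ w ∈ b.U} := by
      ext w
      constructor
      · rintro ⟨⟨h1, h2, h3⟩, h4⟩
        exact ⟨h1, h2, h4, h3⟩
      · rintro ⟨h1, h2, h3, h4⟩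
        exact ⟨⟨h1, h2, h4⟩, h3⟩
    have e2 : {w | w ∈ U ∧ g • w < w ∧ w ∈ b.U} \ a.U = Ps U g a b := by
      ext w
      constructor
      · rintro ⟨⟨h1, h2, h3⟩, h4⟩
        exact ⟨h1, h2, h4, h3⟩
      · rintro ⟨h1, h2, h3, h4⟩
        exact ⟨⟨h1, h2, h4⟩, h3⟩
    rw [e1, e2] at h1
    unfold cnt
    rw [← h1]
    push_cast
    ring
  have e3 : {w | w ∈ U ∧ g • w < w ∧ w ∈ y.U ∧ w ∈ z.U} = {w | w ∈ U ∧ g • w < w ∧ w ∈ z.U ∧ w ∈ y.U} := by
    ext w
    constructor
    · rintro ⟨h1, h2, h3, h4⟩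
      exact ⟨h1, h2, h4, h3⟩
    · rintro ⟨h1, h2, h3, h4⟩
      exact ⟨h1, h2, h4, h3⟩
  unfold nu
  rw [key y z, key z y, e3]
  ring

/-- (3.5) -/
theorem nu_map {P : Set (Vtx H) × Set H} (hP : Rgn P) {g x : G} {y z : Vtx H} (hy : y ∈ P.1) (hz : z ∈ P.1)
    (hx : ∀ w ∈ P.2, Spt w y z → x • w ∈ P.2 ∧ (g • w < w ↔ g • (x • w) < x • w)) :
    nu P.2 g (x • y) (x • z) = nu P.2 g y z := by
  have key : ∀ a ∈ P.1, ∀ b ∈ P.1, (∀ w ∈ P.2, Spt w a b → x • w ∈ P.2 ∧ (g • w < w ↔ g • (x • w) < x • w)) →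
      (Ps P.2 g (x • a) (x • b)).ncard = (Ps P.2 g a b).ncard := by
    intro a ha b hb hab
    have e : Ps P.2 g (x • a) (x • b) = (fun w : H => x • w) '' Ps P.2 g a b := by
      ext w'
      constructor
      · rintro ⟨h1, h2, h3, h4⟩
        obtain ⟨w, rfl⟩ : ∃ w, w' = x • w := ⟨x⁻¹ • w', (smul_inv_smul x w').symm⟩
        rw [smul_mem_smul] at h3 h4
        have h5 : w ∈ P.2 := by
          rcases hP.sep b hb a ha w h4 h3 with h5 | h5
          · exact h5
          · have h6 := (hab (st w) h5 (by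
              unfold Spt
              rw [a.st_mem, b.st_mem]
              tauto)).1
            rw [smul_st] at h6
            refine absurd ?_ (hP.nf _ h1 _ h6).1
            rw [st_st]
        exact ⟨w, ⟨h5, ((hab w h5 (by unfold Spt; tauto)).2).2 h2, h3, h4⟩, rfl⟩
      · rintro ⟨w, ⟨h1, h2, h3, h4⟩, rfl⟩
        have h5 := hab w h1 (by unfold Spt; tauto)
        exact ⟨h5.1, h5.2.1 h2, fun h6 => h3 (smul_mem_smul.1 h6), smul_mem_smul.2 h4⟩
    rw [e]
    exact Set.ncard_image_of_injective _ (MulAction.injective x)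
  rw [nu_eq hP.fin2, nu_eq hP.fin2, key y hy z hz hx, key z hz y hy]
  intro w hw hs
  exact hx w hw fun h => hs h.symm

/-- the mirror image of `dep_fin` -/
theorem low_fin (y : Vtx H) (h : H) : {k | k ≤ h ∧ k ∈ y.U}.Finite := by
  refine ((dep_fin y (st h)).image st).subset ?_
  rintro k ⟨h1, h2⟩
  refine ⟨st k, ⟨st_le h1, ?_⟩, st_st k⟩
  rw [y.st_mem, not_not]
  exact h2

theorem exists_inv_mem {g : G} {w : H} (h : g • w < w) (y : Vtx H) : ∃ j : ℕ, g⁻¹ ^ j • w ∈ y.U := by
  by_contra hcon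
  push Not at hcon
  have h1 : StrictMono fun j : ℕ => g⁻¹ ^ j • w := by
    refine strictMono_nat_of_lt_succ fun j => ?_
    show g⁻¹ ^ j • w < g⁻¹ ^ (j + 1) • w
    rw [pow_succ, mul_smul, smul_lt]
    exact lt_inv_iff.2 h
  have h2 : Set.range (fun j : ℕ => g⁻¹ ^ j • w) ⊆ {k | w ≤ k ∧ k ∉ y.U} := by
    rintro _ ⟨j, rfl⟩
    refine ⟨?_, hcon j⟩
    have := h1.monotone (Nat.zero_le j)
    simp only [pow_zero, one_smul] at this
    exact this
  exact Set.infinite_range_of_injective h1.injective ((dep_fin y w).subset h2)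

theorem exists_notMem {g : G} {w : H} (h : g • w < w) (y : Vtx H) : ∃ j : ℕ, g ^ j • w ∉ y.U := by
  by_contra hcon
  push Not at hcon
  have h1 : StrictAnti fun j : ℕ => g ^ j • w := by
    refine strictAnti_nat_of_succ_lt fun j => ?_
    show g ^ (j + 1) • w < g ^ j • w
    rw [pow_succ, mul_smul, smul_lt]
    exact h
  have h2 : Set.range (fun j : ℕ => g ^ j • w) ⊆ {k | k ≤ w ∧ k ∈ y.U} := by
    rintro _ ⟨j, rfl⟩
    refine ⟨?_, hcon j⟩
    have := h1.antitone (Nat.zero_le j)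
    simp only [pow_zero, one_smul] at this
    exact this
  exact Set.infinite_range_of_injective h1.injective ((low_fin y w).subset h2)

/-- (3.6) -/
theorem nu_pos {P : Set (Vtx H) × Set H} (hP : Rgn P) {g : G} {y : Vtx H} (hy : y ∈ P.1) (hgy : g • y ∈ P.1) {w : H}
    (hw : w ∈ P.2) (hlt : g • w < w) : 0 < nu P.2 g y (g • y) := by
  have h1 : Ps P.2 g (g • y) y = ∅ := by
    rw [Set.eq_empty_iff_forall_notMem]
    rintro k ⟨h1, h2, h3, h4⟩
    exact h3 (mem_smul.2 (y.up h4 (lt_inv_iff.2 h2).le))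
  have h2 : (Ps P.2 g y (g • y)).Nonempty := by
    classical
    by_cases hwy : w ∈ y.U
    · have hex := exists_notMem hlt y
      have hj := Nat.find_spec hex
      have hmin := fun m => Nat.find_min (H := hex) (m := m)
      generalize Nat.find hex = j at hj hmin
      have hj0 : j ≠ 0 := by
        rintro rfl
        rw [pow_zero, one_smul] at hj
        exact hj hwy
      obtain ⟨i, rfl⟩ : ∃ i, j = i + 1 := ⟨j - 1, by omega⟩
      have h3 : g ^ i • w ∈ y.U := by
        have := hmin i (by omega)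
        rwa [not_not] at this
      have h4 : g ^ (i + 1) • w ∈ (g • y).U := by
        rw [pow_succ', mul_smul, smul_mem_smul]
        exact h3
      have h5 : g ^ (i + 1) • w < w := lt_pow hlt (by omega)
      refine ⟨g ^ (i + 1) • w, ?_, ?_, hj, h4⟩
      · rcases hP.sep _ hgy _ hy _ h4 hj with h6 | h6
        · exact h6
        · refine absurd ?_ (hP.nf _ h6 _ hw).2
          rw [st_st]
          exact h5.le
      · rw [smul_smul, ← pow_succ', pow_succ, mul_smul, smul_lt]
        exact hlt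
    · have hex := exists_inv_mem hlt y
      have hj := Nat.find_spec hex
      have hmin := fun m => Nat.find_min (H := hex) (m := m)
      generalize Nat.find hex = j at hj hmin
      have hj0 : j ≠ 0 := by
        rintro rfl
        rw [pow_zero, one_smul] at hj
        exact hwy hj
      obtain ⟨i, rfl⟩ : ∃ i, j = i + 1 := ⟨j - 1, by omega⟩
      have h3 : g⁻¹ ^ i • w ∉ y.U := hmin i (by omega)
      have h4 : w ≤ g⁻¹ ^ i • w := by
        rcases Nat.eq_zero_or_pos i with h0 | h0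
        · rw [h0, pow_zero, one_smul]
        · exact (gt_pow (lt_inv_iff.2 hlt) h0).le
      refine ⟨g⁻¹ ^ i • w, hP.up w hw _ h4 ⟨y, hy, h3⟩, ?_, h3, ?_⟩
      · rw [← lt_inv_iff, smul_smul, ← pow_succ', pow_succ, mul_smul, smul_lt]
        exact lt_inv_iff.2 hlt
      · rw [mem_smul, smul_smul, ← pow_succ']
        exact hj
  rw [nu_eq hP.fin2, h1, Set.ncard_empty]
  have h3 := (Set.ncard_pos (hP.fin2.subset fun w hw => hw.1)).2 h2
  push_cast
  omega

end Pool.Agent.H25.CN
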