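import Pool.Agent.H25.CN.Net

/-!
# H25 CN, Exn: the net of a labelled set of points in a space with a distance

`exists_net`: the statement of the interface `Pool/Agent/H37/CC/NetI.lean`. Two points of `D` are adjacent if their distance is at most
`a` and their labels are different; outside of `D` the labels are replaced by `0`; `net`, `net_local`, `net_equiv`, `col_le`.
-/

set_option autoImplicit false

namespace Pool.Agent.H25.CN

theorem col_bound (Δ Λ : ℕ) : col Δ Λ ≤ (100 * (Δ + 1) ^ 2 * (Nat.log 2 (Nat.log 2 Λ + 2) + 1)) ^ 2 := by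
  refine le_trans (col_le Δ Λ) (Nat.pow_le_pow_left ?_ 2)
  generalize Nat.log 2 Λ = L
  obtain ⟨a, ha⟩ : ∃ a, a = Nat.log 2 (L + 2) := ⟨_, rfl⟩
  rw [← ha]
  have h1 : L + 2 < 2 ^ (a + 1) := by
    rw [ha]
    exact Nat.lt_pow_succ_log_self (by norm_num) _
  have h2 : Δ + 1 < 2 ^ (Δ + 1) := Nat.lt_two_pow_self
  have h3 : 2 * (L * Δ + 1) < 2 ^ (a + Δ + 3) := by
    calc 2 * (L * Δ + 1) ≤ 2 * ((L + 2) * (Δ + 1)) := by nlinarith
      _ < 2 * (2 ^ (a + 1) * 2 ^ (Δ + 1)) := by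
        refine Nat.mul_lt_mul_of_pos_left ?_ (by norm_num)
        exact Nat.mul_lt_mul'' h1 h2
      _ = 2 ^ (a + Δ + 3) := by
        rw [← pow_add, ← pow_succ']
        congr 1
        omega
  have h4 : (2 * (L * Δ + 1)) ^ 2 < 2 ^ ((a + Δ + 3) * 2) := by
    rw [pow_mul]
    exact Nat.pow_lt_pow_left h3 (by norm_num)
  have h5 : Nat.log 2 ((2 * (L * Δ + 1)) ^ 2) ≤ 2 * (a + Δ + 3) := by
    have : Nat.log 2 ((2 * (L * Δ + 1)) ^ 2) < (a + Δ + 3) * 2 := Nat.log_lt_of_lt_pow (by positivity) h4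
    omega
  have h6 := Nat.mul_le_mul_right Δ h5
  calc 2 * (Nat.log 2 ((2 * (L * Δ + 1)) ^ 2) * Δ + 1) ≤ 2 * (2 * (a + Δ + 3) * Δ + 1) := by omega
    _ ≤ 100 * (Δ + 1) ^ 2 * (a + 1) := by
      have e : 100 * (Δ + 1) ^ 2 * (a + 1) = 2 * (2 * (a + Δ + 3) * Δ + 1) +
        (96 * a * Δ ^ 2 + 196 * a * Δ + 100 * a + 4 * a * Δ ^ 2 + 96 * Δ ^ 2 + 188 * Δ + 98) := by ring
      rw [e]
      exact Nat.le_add_right _ _

theorem exists_net {X : Type} (d : X → X → ℕ) (h0 : ∀ x, d x x = 0) (hs : ∀ x y, d x y = d y x)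
    (ht : ∀ x y z, d x z ≤ d x y + d y z) (a Δ Λ K : ℕ)
    (hK : (100 * (Δ + 1) ^ 2 * (Nat.log 2 (Nat.log 2 Λ + 2) + 1)) ^ 2 ≤ K) :
    ∃ Net : Set X → (X → ℕ) → Set X,
      (∀ D l, (∀ y ∈ D, l y < Λ) → (∀ y ∈ D, {z ∈ D | d y z ≤ a}.encard ≤ Δ) →
        Net D l ⊆ D ∧ (∀ y ∈ Net D l, ∀ z ∈ Net D l, d y z ≤ a → l y = l z) ∧ (∀ y ∈ D, ∃ z ∈ Net D l, d y z ≤ a)) ∧
      (∀ D D' l l' y, (∀ z, d y z ≤ (K + 3) * a → ((z ∈ D ↔ z ∈ D') ∧ (z ∈ D → l z = l' z))) →
        (y ∈ Net D l ↔ y ∈ Net D' l')) ∧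
      (∀ e : X ≃ X, (∀ x y, d (e x) (e y) = d x y) → ∀ D l, Net (e '' D) (fun x => l (e.symm x)) = e '' Net D l) := by
  classical
  have hcol : col Δ Λ ≤ K := le_trans (col_bound Δ Λ) hK
  set adj : Set X → (X → ℕ) → X → X → Prop := fun D l y z => y ∈ D ∧ z ∈ D ∧ d y z ≤ a ∧ l y ≠ l z with hadj
  set lb : Set X → (X → ℕ) → X → ℕ := fun D l y => if y ∈ D then l y else 0 with hlb
  refine ⟨fun D l => net Δ Λ D (adj D l) (lb D l), ?_, ?_, ?_⟩
  · intro D l hl hdeg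
    have hok : Ok Δ Λ D (adj D l) (lb D l) :=
      { symm := fun y z h => ⟨h.2.1, h.1, by rw [hs]; exact h.2.2.1, h.2.2.2.symm⟩
        mem := fun y z h => h.1
        deg := fun y hy => by
          have h1 : {z | adj D l y z} ⊆ {z ∈ D | d y z ≤ a} := fun z hz => ⟨hz.2.1, hz.2.2.1⟩
          exact le_trans (Set.encard_le_encard h1) (hdeg y hy)
        lt := fun y hy => by
          show (if y ∈ D then l y else 0) < Λ
          rw [if_pos hy]
          exact hl y hy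
        ne := fun y z h => by
          show (if y ∈ D then l y else 0) ≠ (if z ∈ D then l z else 0)
          rw [if_pos h.1, if_pos h.2.1]
          exact h.2.2.2 }
    refine ⟨net_sub, fun y hy z hz hyz => ?_, fun y hy => ?_⟩
    · by_contra hne
      exact net_indep hok y hy z hz ⟨net_sub hy, net_sub hz, hyz, hne⟩
    · rcases net_max hok hy with h | ⟨z, hz, h⟩
      · exact ⟨y, h, by rw [h0]; exact Nat.zero_le _⟩
      · exact ⟨z, hz, h.2.2.1⟩
  · intro D D' l l' y h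
    refine net_local (R := fun m z z' => z = z' ∧ ∀ u, d z u ≤ m * a → (u ∈ D ↔ u ∈ D') ∧ (u ∈ D → l u = l' u)) ?_ ?_
    · rintro m z z' ⟨rfl, hz⟩
      have hzz := hz z (by rw [h0]; exact Nat.zero_le _)
      have hR : ∀ u, d z u ≤ a → ∀ v, d u v ≤ m * a → (v ∈ D ↔ v ∈ D') ∧ (v ∈ D → l v = l' v) := by
        intro u hu v hv
        refine hz v ?_
        calc d z v ≤ d z u + d u v := ht z u v
          _ ≤ a + m * a := Nat.add_le_add hu hv
          _ = (m + 1) * a := by ring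
      have hu1 : ∀ u, d z u ≤ a → (u ∈ D ↔ u ∈ D') ∧ (u ∈ D → l u = l' u) := by
        intro u hu
        refine hz u (le_trans hu ?_)
        calc a = 1 * a := (one_mul a).symm
          _ ≤ (m + 1) * a := Nat.mul_le_mul_right a (by omega)
      refine ⟨hzz.1, ?_, ?_, ?_⟩
      · show (if z ∈ D then l z else 0) = (if z ∈ D' then l' z else 0)
        by_cases hzD : z ∈ D
        · rw [if_pos hzD, if_pos (hzz.1.1 hzD)]
          exact hzz.2 hzD
        · rw [if_neg hzD, if_neg fun h1 => hzD (hzz.1.2 h1)]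
      · rintro u ⟨h1, h2, h3, h4⟩
        have hu2 := hu1 u h3
        refine ⟨u, ⟨hzz.1.1 h1, hu2.1.1 h2, h3, ?_⟩, rfl, hR u h3⟩
        rw [← hzz.2 h1, ← hu2.2 h2]
        exact h4
      · rintro u ⟨h1, h2, h3, h4⟩
        have hu2 := hu1 u h3
        have h1' := hzz.1.2 h1
        have h2' := hu2.1.2 h2
        refine ⟨u, ⟨h1', h2', h3, ?_⟩, rfl, hR u h3⟩
        rw [hzz.2 h1', hu2.2 h2']
        exact h4
    · refine ⟨rfl, fun u hu => h u (le_trans hu ?_)⟩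
      exact Nat.mul_le_mul_right a (by omega)
  · intro e he D l
    ext x
    obtain ⟨y, rfl⟩ := e.surjective x
    have hmem : ∀ z, e z ∈ e '' D ↔ z ∈ D := fun z => e.injective.mem_set_image
    rw [e.injective.mem_set_image]
    refine (net_equiv e (fun z => (hmem z).symm) (fun z u => ?_) (fun z => ?_) y).symm
    · show (z ∈ D ∧ u ∈ D ∧ d z u ≤ a ∧ l z ≠ l u) ↔
        (e z ∈ e '' D ∧ e u ∈ e '' D ∧ d (e z) (e u) ≤ a ∧ l (e.symm (e z)) ≠ l (e.symm (e u)))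
      rw [hmem, hmem, he, e.symm_apply_apply, e.symm_apply_apply]
    · show (if z ∈ D then l z else 0) = (if e z ∈ e '' D then l (e.symm (e z)) else 0)
      rw [e.symm_apply_apply]
      by_cases hz : z ∈ D
      · rw [if_pos hz, if_pos ((hmem z).2 hz)]
      · rw [if_neg hz, if_neg fun h => hz ((hmem z).1 h)]

end Pool.Agent.H25.CN
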