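import Mathlib

/-!
# H25 CN, Lin: one step of Linial's colour reduction

`ev p d x t`: the polynomial of degree at most `d` whose coefficients are the digits of `x` in base `p`, at `t`, modulo `p`. Two different
numbers below `p ^ (d + 1)` have at most `d` common values (`ev_card`). `lin p d x A`: the new label of a point with label `x`, the
labels of whose neighbours are the elements of `A`: `t * p + ev p d x t`, `t` minimal with `ev p d x t ≠ ev p d y t` for all `y ∈ A`.
-/

set_option autoImplicit false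

namespace Pool.Agent.H25.CN

/-- the polynomial with the digits of `x` at `t`, modulo `p` -/
def ev (p d x t : ℕ) : ℕ := (∑ i ∈ Finset.range (d + 1), (x / p ^ i) * t ^ i) % p

theorem eq_of_digits {p : ℕ} (hp : 0 < p) (d : ℕ) : ∀ x y : ℕ, x < p ^ (d + 1) → y < p ^ (d + 1) →
    (∀ i ≤ d, x / p ^ i % p = y / p ^ i % p) → x = y := by
  induction d with
  | zero =>
    intro x y hx hy h
    have h0 := h 0 le_rfl
    rw [zero_add, pow_one] at hx hy
    rw [pow_zero, Nat.div_one, Nat.div_one, Nat.mod_eq_of_lt hx, Nat.mod_eq_of_lt hy] at h0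
    exact h0
  | succ d ih =>
    intro x y hx hy h
    have h1 : x / p = y / p := by
      refine ih (x / p) (y / p) ?_ ?_ fun i hi => ?_
      · rw [Nat.div_lt_iff_lt_mul hp, ← pow_succ]
        exact hx
      · rw [Nat.div_lt_iff_lt_mul hp, ← pow_succ]
        exact hy
      · have := h (i + 1) (by omega)
        rw [pow_succ', ← Nat.div_div_eq_div_mul, ← Nat.div_div_eq_div_mul] at this
        exact this
    have h0 := h 0 (Nat.zero_le _)
    rw [pow_zero, Nat.div_one, Nat.div_one] at h0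
    rw [← Nat.div_add_mod x p, ← Nat.div_add_mod y p, h1, h0]

theorem ev_card {p : ℕ} (hp : p.Prime) {d x y : ℕ} (hx : x < p ^ (d + 1)) (hy : y < p ^ (d + 1)) (hne : x ≠ y) :
    ((Finset.range p).filter fun t => ev p d x t = ev p d y t).card ≤ d := by
  classical
  have : Fact p.Prime := ⟨hp⟩
  set P : Polynomial (ZMod p) := ∑ i ∈ Finset.range (d + 1),
    Polynomial.monomial i (((x / p ^ i : ℕ) : ZMod p) - ((y / p ^ i : ℕ) : ZMod p)) with hP
  have hcoef : ∀ i ≤ d, P.coeff i = ((x / p ^ i : ℕ) : ZMod p) - ((y / p ^ i : ℕ) : ZMod p) := by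
    intro i hi
    rw [hP, Polynomial.finsetSum_coeff]
    rw [Finset.sum_eq_single i]
    · rw [Polynomial.coeff_monomial_same]
    · intro j _ hj
      exact Polynomial.coeff_monomial_of_ne _ hj.symm
    · intro h
      exact absurd (Finset.mem_range.2 (by omega)) h
  have hP0 : P ≠ 0 := by
    intro h0
    apply hne
    refine eq_of_digits hp.pos d x y hx hy fun i hi => ?_
    have h1 := hcoef i hi
    rw [h0, Polynomial.coeff_zero] at h1
    have h2 : ((x / p ^ i : ℕ) : ZMod p) = ((y / p ^ i : ℕ) : ZMod p) := (sub_eq_zero.1 h1.symm)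
    exact (ZMod.natCast_eq_natCast_iff' _ _ _).1 h2
  have hdeg : P.natDegree ≤ d := by
    refine Polynomial.natDegree_sum_le_of_forall_le _ _ fun i hi => ?_
    refine le_trans (Polynomial.natDegree_monomial_le _) ?_
    have := Finset.mem_range.1 hi
    omega
  have hev : ∀ t : ℕ, ev p d x t = ev p d y t → P.IsRoot (t : ZMod p) := by
    intro t ht
    unfold ev at ht
    have h1 := (ZMod.natCast_eq_natCast_iff' _ _ p).2 ht
    push_cast at h1
    rw [Polynomial.IsRoot.def, hP, Polynomial.eval_finsetSum]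
    simp only [Polynomial.eval_monomial]
    simp only [sub_mul]
    rw [Finset.sum_sub_distrib, sub_eq_zero]
    exact_mod_cast h1
  calc ((Finset.range p).filter fun t => ev p d x t = ev p d y t).card
      ≤ P.roots.toFinset.card := by
        refine Finset.card_le_card_of_injOn (fun t : ℕ => (t : ZMod p)) ?_ ?_
        · intro t ht
          have ht' := (Finset.mem_filter.1 (Finset.mem_coe.1 ht)).2
          exact Finset.mem_coe.2 (Multiset.mem_toFinset.2 ((Polynomial.mem_roots hP0).2 (hev t ht')))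
        · intro t ht t' ht' h
          have h1 := Finset.mem_range.1 (Finset.mem_filter.1 (Finset.mem_coe.1 ht)).1
          have h2 := Finset.mem_range.1 (Finset.mem_filter.1 (Finset.mem_coe.1 ht')).1
          have h3 := (ZMod.natCast_eq_natCast_iff' t t' p).1 h
          rwa [Nat.mod_eq_of_lt h1, Nat.mod_eq_of_lt h2] at h3
    _ ≤ Multiset.card P.roots := Multiset.toFinset_card_le _
    _ ≤ P.natDegree := Polynomial.card_roots' _
    _ ≤ d := hdeg

/-- a good point -/
theorem exists_good {p : ℕ} (hp : p.Prime) {d x Δ : ℕ} {A : Set ℕ} (hx : x < p ^ (d + 1)) (hA : A.encard ≤ Δ)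
    (hlt : ∀ y ∈ A, y < p ^ (d + 1)) (hxA : x ∉ A) (hd : d * Δ < p) :
    ∃ t < p, ∀ y ∈ A, ev p d x t ≠ ev p d y t := by
  classical
  have hfin : A.Finite := Set.finite_of_encard_le_coe hA
  obtain ⟨B, hB⟩ := hfin.exists_finset_coe
  subst hB
  rw [Set.encard_coe_eq_coe_finsetCard] at hA
  have hc : B.card ≤ Δ := by exact_mod_cast hA
  by_contra hcon
  push Not at hcon
  have h1 : Finset.range p ⊆ B.biUnion fun y => (Finset.range p).filter fun t => ev p d x t = ev p d y t := by
    intro t ht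
    obtain ⟨y, hy, he⟩ := hcon t (Finset.mem_range.1 ht)
    exact Finset.mem_biUnion.2 ⟨y, hy, Finset.mem_filter.2 ⟨ht, he⟩⟩
  have h2 := Finset.card_le_card h1
  rw [Finset.card_range] at h2
  have h3 : (B.biUnion fun y => (Finset.range p).filter fun t => ev p d x t = ev p d y t).card ≤ B.card * d := by
    refine Finset.card_biUnion_le_card_mul _ _ _ fun y hy => ?_
    exact ev_card hp hx (hlt y hy) fun h => hxA (h ▸ hy)
  have h4 : B.card * d ≤ Δ * d := Nat.mul_le_mul_right d hc
  rw [mul_comm] at hd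
  omega

/-- the new label -/
noncomputable def lin (p d x : ℕ) (A : Set ℕ) : ℕ :=
  sInf {t | ∀ y ∈ A, ev p d x t ≠ ev p d y t} * p + ev p d x (sInf {t | ∀ y ∈ A, ev p d x t ≠ ev p d y t})

theorem lin_lt {p : ℕ} (hp : p.Prime) {d x Δ : ℕ} {A : Set ℕ} (hx : x < p ^ (d + 1)) (hA : A.encard ≤ Δ)
    (hlt : ∀ y ∈ A, y < p ^ (d + 1)) (hxA : x ∉ A) (hd : d * Δ < p) : lin p d x A < p ^ 2 := by
  obtain ⟨t, ht, h⟩ := exists_good hp hx hA hlt hxA hd
  unfold lin
  have h1 : sInf {t | ∀ y ∈ A, ev p d x t ≠ ev p d y t} < p := lt_of_le_of_lt (Nat.sInf_le h) ht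
  have h2 : ev p d x (sInf {t | ∀ y ∈ A, ev p d x t ≠ ev p d y t}) < p := Nat.mod_lt _ hp.pos
  generalize sInf {t | ∀ y ∈ A, ev p d x t ≠ ev p d y t} = u at h1 h2 ⊢
  calc u * p + ev p d x u < u * p + p := by omega
    _ = (u + 1) * p := by ring
    _ ≤ p * p := Nat.mul_le_mul_right _ h1
    _ = p ^ 2 := by ring

theorem lin_ne {p : ℕ} (hp : p.Prime) {d x y Δ : ℕ} {A B : Set ℕ} (hx : x < p ^ (d + 1)) (hA : A.encard ≤ Δ)
    (hlt : ∀ y ∈ A, y < p ^ (d + 1)) (hxA : x ∉ A) (hd : d * Δ < p) (hyA : y ∈ A) :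
    lin p d x A ≠ lin p d y B := by
  obtain ⟨t, ht, h⟩ := exists_good hp hx hA hlt hxA hd
  have h0 : sInf {t | ∀ y ∈ A, ev p d x t ≠ ev p d y t} ∈ {t | ∀ y ∈ A, ev p d x t ≠ ev p d y t} := Nat.sInf_mem ⟨t, h⟩
  unfold lin
  generalize sInf {t | ∀ y ∈ A, ev p d x t ≠ ev p d y t} = u at h0 ⊢
  generalize sInf {t | ∀ z ∈ B, ev p d y t ≠ ev p d z t} = w
  intro he
  have h1 : ev p d x u < p := Nat.mod_lt _ hp.pos
  have h2 : ev p d y w < p := Nat.mod_lt _ hp.pos
  have h3 : u = w := by
    have e1 : (u * p + ev p d x u) / p = u := by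
      rw [mul_comm, Nat.mul_add_div hp.pos, Nat.div_eq_of_lt h1, add_zero]
    have e2 : (w * p + ev p d y w) / p = w := by
      rw [mul_comm, Nat.mul_add_div hp.pos, Nat.div_eq_of_lt h2, add_zero]
    rw [← e1, ← e2, he]
  subst h3
  exact h0 y hyA (by omega)

end Pool.Agent.H25.CN
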