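import Pool.Agent.H25.CN.Lin

/-!
# H25 CN, Net: the canonical maximal independent set

`Ok Δ Λ D adj l`: `adj` is a symmetric relation on `D`, every point has at most `Δ` neighbours, neighbours have different labels, all labels
are less than `Λ`. `net Δ Λ D adj l`: two steps of Linial's reduction (`stp`), then the greedy algorithm (`gr`): a maximal
independent set (`net_indep`, `net_max`). `net_local`: membership is invariant under a bisimulation of depth `col Δ Λ + 3`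
(so it depends only on the ball and commutes with isomorphisms). `col_le`: the number of colours.
-/

set_option autoImplicit false

namespace Pool.Agent.H25.CN

/-- a symmetric relation on `D` with bounded degree, a proper labelling -/
structure Ok (Δ Λ : ℕ) {V : Type} (D : Set V) (adj : V → V → Prop) (l : V → ℕ) : Prop where
  symm : ∀ y z, adj y z → adj z y
  mem : ∀ y z, adj y z → y ∈ D
  deg : ∀ y ∈ D, {z | adj y z}.encard ≤ Δ
  lt : ∀ y ∈ D, l y < Λ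
  ne : ∀ y z, adj y z → l y ≠ l z

/-- the labels of the neighbours -/
def nb {V : Type} (adj : V → V → Prop) (l : V → ℕ) (y : V) : Set ℕ := {c | ∃ z, adj y z ∧ l z = c}

theorem nb_card {Δ Λ : ℕ} {V : Type} {D : Set V} {adj : V → V → Prop} {l : V → ℕ} (h : Ok Δ Λ D adj l) {y : V} (hy : y ∈ D) :
    (nb adj l y).encard ≤ Δ := by
  have e : nb adj l y = l '' {z | adj y z} := rfl
  rw [e]
  exact le_trans (Set.encard_image_le _ _) (h.deg y hy)

/-- a prime between `n + 1` and `2 * n + 2` -/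
theorem exists_pr (n : ℕ) : ∃ p : ℕ, p.Prime ∧ n + 1 < p ∧ p ≤ 2 * (n + 1) := Nat.exists_prime_lt_and_le_two_mul (n + 1) (by omega)

/-- the prime number used for `Λ` labels -/
noncomputable def pr (Δ Λ : ℕ) : ℕ := Classical.choose (exists_pr (Nat.log 2 Λ * Δ))

theorem pr_prime (Δ Λ : ℕ) : (pr Δ Λ).Prime := (Classical.choose_spec (exists_pr (Nat.log 2 Λ * Δ))).1

theorem pr_lt (Δ Λ : ℕ) : Nat.log 2 Λ * Δ < pr Δ Λ := by
  have := (Classical.choose_spec (exists_pr (Nat.log 2 Λ * Δ))).2.1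
  unfold pr
  omega

theorem pr_le (Δ Λ : ℕ) : pr Δ Λ ≤ 2 * (Nat.log 2 Λ * Δ + 1) := (Classical.choose_spec (exists_pr (Nat.log 2 Λ * Δ))).2.2

theorem le_pr_pow (Δ Λ : ℕ) : Λ ≤ pr Δ Λ ^ (Nat.log 2 Λ + 1) := by
  have h1 : Λ < 2 ^ (Nat.log 2 Λ + 1) := Nat.lt_pow_succ_log_self (by norm_num) Λ
  exact le_trans h1.le (Nat.pow_le_pow_left (pr_prime Δ Λ).two_le _)

/-- one step of the colour reduction -/
noncomputable def stp (Δ Λ : ℕ) {V : Type} (adj : V → V → Prop) (l : V → ℕ) (y : V) : ℕ :=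
  lin (pr Δ Λ) (Nat.log 2 Λ) (l y) (nb adj l y)

theorem stp_ok {Δ Λ : ℕ} {V : Type} {D : Set V} {adj : V → V → Prop} {l : V → ℕ} (h : Ok Δ Λ D adj l) :
    Ok Δ (pr Δ Λ ^ 2) D adj (stp Δ Λ adj l) where
  symm := h.symm
  mem := h.mem
  deg := h.deg
  lt := by
    intro y hy
    refine lin_lt (pr_prime Δ Λ) (Δ := Δ) (lt_of_lt_of_le (h.lt y hy) (le_pr_pow Δ Λ)) (nb_card h hy) ?_ ?_ (pr_lt Δ Λ)
    · rintro c ⟨z, hz, rfl⟩
      exact lt_of_lt_of_le (h.lt z (h.mem z y (h.symm y z hz))) (le_pr_pow Δ Λ)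
    · rintro ⟨z, hz, e⟩
      exact h.ne y z hz e.symm
  ne := by
    intro y z hyz
    have hy := h.mem y z hyz
    have hz := h.mem z y (h.symm y z hyz)
    refine lin_ne (pr_prime Δ Λ) (Δ := Δ) (lt_of_lt_of_le (h.lt y hy) (le_pr_pow Δ Λ)) (nb_card h hy) ?_ ?_ (pr_lt Δ Λ) ?_
    · rintro c ⟨z, hz, rfl⟩
      exact lt_of_lt_of_le (h.lt z (h.mem z y (h.symm y z hz))) (le_pr_pow Δ Λ)
    · rintro ⟨z, hz, e⟩
      exact h.ne y z hz e.symm
    · exact ⟨z, hyz, rfl⟩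

/-- the greedy algorithm: the selected points of colour less than `k` -/
def gr {V : Type} (D : Set V) (adj : V → V → Prop) (c : V → ℕ) : ℕ → Set V
  | 0 => ∅
  | k + 1 => gr D adj c k ∪ {y | y ∈ D ∧ c y = k ∧ ∀ z, adj y z → z ∉ gr D adj c k}

theorem gr_sub {V : Type} {D : Set V} {adj : V → V → Prop} {c : V → ℕ} (k : ℕ) : ∀ y ∈ gr D adj c k, y ∈ D ∧ c y < k := by
  induction k with
  | zero => exact fun y hy => absurd hy (Set.notMem_empty y)
  | succ k ih =>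
    rintro y (hy | ⟨h1, h2, -⟩)
    · exact ⟨(ih y hy).1, by have := (ih y hy).2; omega⟩
    · exact ⟨h1, by omega⟩

theorem gr_indep {V : Type} {D : Set V} {adj : V → V → Prop} {c : V → ℕ} (hs : ∀ y z, adj y z → adj z y)
    (hne : ∀ y z, adj y z → c y ≠ c z) (k : ℕ) : ∀ y ∈ gr D adj c k, ∀ z ∈ gr D adj c k, ¬ adj y z := by
  induction k with
  | zero => exact fun y hy => absurd hy (Set.notMem_empty y)
  | succ k ih =>
    rintro y (hy | ⟨h1, h2, h3⟩) z (hz | ⟨h4, h5, h6⟩) hyz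
    · exact ih y hy z hz hyz
    · exact h6 y (hs y z hyz) hy
    · exact h3 z hyz hz
    · exact hne y z hyz (by omega)

theorem gr_mono {V : Type} {D : Set V} {adj : V → V → Prop} {c : V → ℕ} {k m : ℕ} (h : k ≤ m) :
    gr D adj c k ⊆ gr D adj c m := by
  induction m, h using Nat.le_induction with
  | base => exact le_rfl
  | succ m _ ih => exact fun y hy => Or.inl (ih hy)

theorem gr_max {V : Type} {D : Set V} {adj : V → V → Prop} {c : V → ℕ} {K : ℕ} {y : V} (hy : y ∈ D) (hc : c y < K) :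
    y ∈ gr D adj c K ∨ ∃ z ∈ gr D adj c K, adj y z := by
  by_cases h : ∃ z ∈ gr D adj c (c y), adj y z
  · obtain ⟨z, hz, h1⟩ := h
    exact Or.inr ⟨z, gr_mono hc.le hz, h1⟩
  · push Not at h
    left
    refine gr_mono (show c y + 1 ≤ K by omega) (Or.inr ⟨hy, rfl, fun z hz hz' => h z hz' hz⟩)

/-- bisimulations -/
def Bis {V V' : Type} (D : Set V) (D' : Set V') (adj : V → V → Prop) (adj' : V' → V' → Prop) (l : V → ℕ) (l' : V' → ℕ)
    (R : ℕ → V → V' → Prop) : Prop :=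
  ∀ m y y', R (m + 1) y y' → (y ∈ D ↔ y' ∈ D') ∧ l y = l' y' ∧ (∀ z, adj y z → ∃ z', adj' y' z' ∧ R m z z') ∧
    ∀ z', adj' y' z' → ∃ z, adj y z ∧ R m z z'

theorem bis_nb {V V' : Type} {D : Set V} {D' : Set V'} {adj : V → V → Prop} {adj' : V' → V' → Prop} {l : V → ℕ} {l' : V' → ℕ}
    {R : ℕ → V → V' → Prop} (h : Bis D D' adj adj' l l' R) {m : ℕ} {y : V} {y' : V'} (hR : R (m + 2) y y') :
    nb adj l y = nb adj' l' y' := by
  obtain ⟨-, -, h1, h2⟩ := h (m + 1) y y' hR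
  ext c
  constructor
  · rintro ⟨z, hz, rfl⟩
    obtain ⟨z', hz', hz2⟩ := h1 z hz
    exact ⟨z', hz', (h m z z' hz2).2.1.symm⟩
  · rintro ⟨z', hz', rfl⟩
    obtain ⟨z, hz, hz2⟩ := h2 z' hz'
    exact ⟨z, hz, (h m z z' hz2).2.1⟩

theorem bis_stp {V V' : Type} {D : Set V} {D' : Set V'} {adj : V → V → Prop} {adj' : V' → V' → Prop} {l : V → ℕ} {l' : V' → ℕ}
    {R : ℕ → V → V' → Prop} (h : Bis D D' adj adj' l l' R) (Δ Λ : ℕ) :
    Bis D D' adj adj' (stp Δ Λ adj l) (stp Δ Λ adj' l') fun m => R (m + 1) := by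
  intro m y y' hR
  obtain ⟨h0, h1, h2, h3⟩ := h (m + 1) y y' hR
  refine ⟨h0, ?_, h2, h3⟩
  unfold stp
  rw [bis_nb h hR, h1]

theorem bis_gr {V V' : Type} {D : Set V} {D' : Set V'} {adj : V → V → Prop} {adj' : V' → V' → Prop} {l : V → ℕ} {l' : V' → ℕ}
    {R : ℕ → V → V' → Prop} (h : Bis D D' adj adj' l l' R) (k : ℕ) :
    ∀ (m : ℕ) (y : V) (y' : V'), k ≤ m → R (m + 1) y y' → (y ∈ gr D adj l k ↔ y' ∈ gr D' adj' l' k) := by
  induction k with
  | zero => exact fun m y y' _ _ => ⟨fun h => absurd h (Set.notMem_empty y), fun h => absurd h (Set.notMem_empty y')⟩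
  | succ k ih =>
    intro m y y' hm hR
    obtain ⟨h0, h1, h2, h3⟩ := h m y y' hR
    obtain ⟨m', rfl⟩ : ∃ m', m = m' + 1 := ⟨m - 1, by omega⟩
    refine or_congr (ih (m' + 1) y y' (by omega) hR) (and_congr h0 (and_congr (by rw [h1]) ?_))
    constructor
    · intro h4 z' hz' hz''
      obtain ⟨z, hz, hz2⟩ := h3 z' hz'
      exact h4 z hz ((ih m' z z' (by omega) hz2).2 hz'')
    · intro h4 z hz hz'
      obtain ⟨z', hz'', hz2⟩ := h2 z hz
      exact h4 z' hz'' ((ih m' z z' (by omega) hz2).1 hz')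

/-- the number of colours -/
noncomputable def col (Δ Λ : ℕ) : ℕ := pr Δ (pr Δ Λ ^ 2) ^ 2

theorem col_le (Δ Λ : ℕ) : col Δ Λ ≤ (2 * (Nat.log 2 ((2 * (Nat.log 2 Λ * Δ + 1)) ^ 2) * Δ + 1)) ^ 2 := by
  unfold col
  refine Nat.pow_le_pow_left (le_trans (pr_le _ _) ?_) 2
  have h1 : Nat.log 2 (pr Δ Λ ^ 2) ≤ Nat.log 2 ((2 * (Nat.log 2 Λ * Δ + 1)) ^ 2) :=
    Nat.log_mono_right (Nat.pow_le_pow_left (pr_le Δ Λ) 2)
  have h2 := Nat.mul_le_mul_right Δ h1
  omega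

/-- the canonical maximal independent set -/
noncomputable def net (Δ Λ : ℕ) {V : Type} (D : Set V) (adj : V → V → Prop) (l : V → ℕ) : Set V :=
  gr D adj (stp Δ (pr Δ Λ ^ 2) adj (stp Δ Λ adj l)) (col Δ Λ)

section

variable {Δ Λ : ℕ} {V V' : Type} {D : Set V} {adj : V → V → Prop} {l : V → ℕ} {D' : Set V'} {adj' : V' → V' → Prop} {l' : V' → ℕ}

theorem net_sub : net Δ Λ D adj l ⊆ D := fun y hy => (gr_sub _ y hy).1

theorem net_indep (h : Ok Δ Λ D adj l) : ∀ y ∈ net Δ Λ D adj l, ∀ z ∈ net Δ Λ D adj l, ¬ adj y z :=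
  gr_indep h.symm (stp_ok (stp_ok h)).ne _

theorem net_max (h : Ok Δ Λ D adj l) {y : V} (hy : y ∈ D) :
    y ∈ net Δ Λ D adj l ∨ ∃ z ∈ net Δ Λ D adj l, adj y z :=
  gr_max hy ((stp_ok (stp_ok h)).lt y hy)

theorem net_local {R : ℕ → V → V' → Prop} (h : Bis D D' adj adj' l l' R) {y : V} {y' : V'}
    (hR : R (col Δ Λ + 3) y y') : y ∈ net Δ Λ D adj l ↔ y' ∈ net Δ Λ D' adj' l' :=
  bis_gr (bis_stp (bis_stp h Δ Λ) Δ (pr Δ Λ ^ 2)) (col Δ Λ) (col Δ Λ) y y' le_rfl hR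

/-- the net commutes with isomorphisms -/
theorem net_equiv (e : V ≃ V') (hD : ∀ y, y ∈ D ↔ e y ∈ D') (ha : ∀ y z, adj y z ↔ adj' (e y) (e z)) (hl : ∀ y, l y = l' (e y))
    (y : V) : y ∈ net Δ Λ D adj l ↔ e y ∈ net Δ Λ D' adj' l' := by
  refine net_local (R := fun _ z z' => z' = e z) ?_ rfl
  rintro m z z' rfl
  refine ⟨hD z, hl z, fun u hu => ⟨e u, (ha z u).1 hu, rfl⟩, fun u' hu' => ⟨e.symm u', ?_, (e.apply_symm_apply u').symm⟩⟩
  rw [ha, e.apply_symm_apply]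
  exact hu'

end

end Pool.Agent.H25.CN
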