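import Pool.Agent.H37.CC.Defs

/-!
# H25 CN, Typ: types of half-spaces (CCC (3.2) - (3.4))

`Tri g w`: `g • w` is equal to `w` or comparable with `w`. `pow_type`: if `w, g w, .., g ^ n w` are not facing and the dimension is at most
`n` then `Tri (g ^ n!) w`. `type_lt_iff`: comparable half-spaces have the same type.
-/

set_option autoImplicit false

namespace Pool.Agent.H25.CN

open Pool.Agent.H37.CC

variable {G H : Type} [Group G] [PartialOrder H] [Bas H] [MulAction G H] [BAct G H]

/-- `g • w` is `w`, or smaller, or greater -/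
def Tri (g : G) (w : H) : Prop := g • w = w ∨ g • w < w ∨ w < g • w

theorem fix_pow {g : G} {w : H} (h : g • w = w) (m : ℕ) : g ^ m • w = w := by
  induction m with
  | zero => rw [pow_zero, one_smul]
  | succ m ih => rw [pow_succ, mul_smul, h, ih]

theorem lt_pow {g : G} {w : H} (h : g • w < w) {m : ℕ} (hm : 0 < m) : g ^ m • w < w := by
  induction m, hm using Nat.le_induction with
  | base => rwa [pow_one]
  | succ m _ ih =>
    rw [pow_succ, mul_smul]
    exact lt_trans (smul_lt.2 h) ih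

theorem gt_pow {g : G} {w : H} (h : w < g • w) {m : ℕ} (hm : 0 < m) : w < g ^ m • w := by
  induction m, hm using Nat.le_induction with
  | base => rwa [pow_one]
  | succ m _ ih =>
    rw [pow_succ, mul_smul]
    exact lt_trans ih (smul_lt.2 h)

theorem Tri.pow {g : G} {w : H} (h : Tri g w) {m : ℕ} (hm : 0 < m) : Tri (g ^ m) w := by
  rcases h with h | h | h
  · exact Or.inl (fix_pow h m)
  · exact Or.inr (Or.inl (lt_pow h hm))
  · exact Or.inr (Or.inr (gt_pow h hm))

theorem inv_lt_iff {g : G} {w : H} : g⁻¹ • w < w ↔ w < g • w := by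
  rw [← smul_lt (g := g), smul_inv_smul]

theorem lt_inv_iff {g : G} {w : H} : w < g⁻¹ • w ↔ g • w < w := by
  rw [← smul_lt (g := g), smul_inv_smul]

theorem Tri.inv {g : G} {w : H} (h : Tri g w) : Tri g⁻¹ w := by
  rcases h with h | h | h
  · left
    rw [inv_smul_eq_iff]
    exact h.symm
  · exact Or.inr (Or.inr (lt_inv_iff.2 h))
  · exact Or.inr (Or.inl (inv_lt_iff.2 h))

theorem Tri.comparable {g : G} {w : H} (h : Tri g w) : w ≤ g • w ∨ g • w ≤ w := by
  rcases h with h | h | h
  · exact Or.inl h.ge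
  · exact Or.inr h.le
  · exact Or.inl h.le

/-- an element which moves a half-space into a smaller one has infinite order -/
theorem infinite_order {g : G} {w : H} (h : g • w < w) : ¬ IsOfFinOrder g := by
  intro hf
  obtain ⟨m, hm, h1⟩ := isOfFinOrder_iff_pow_eq_one.1 hf
  have h2 := lt_pow h hm
  rw [h1, one_smul] at h2
  exact lt_irrefl _ h2

/-- (3.2) -/
theorem pow_type {n : ℕ} (hd : Dim H n) {g : G} {w : H}
    (h : ∀ i ≤ n, ∀ j ≤ n, ¬ g ^ i • w ≤ st (g ^ j • w) ∧ ¬ st (g ^ i • w) ≤ g ^ j • w) : Tri (g ^ n.factorial) w := by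
  classical
  by_contra hcon
  have key : ∀ p, 0 < p → p ≤ n → ¬ Tri (g ^ p) w := by
    intro p hp hpn h1
    apply hcon
    obtain ⟨m, hm⟩ := Nat.dvd_factorial hp hpn
    rw [hm, pow_mul]
    refine h1.pow ?_
    rcases Nat.eq_zero_or_pos m with h0 | h0
    · rw [h0, mul_zero] at hm
      exact absurd hm (Nat.factorial_ne_zero n)
    · exact h0
  have hcr : ∀ i j, i < j → j ≤ n → g ^ i • w ≠ g ^ j • w ∧ Crs (g ^ i • w) (g ^ j • w) := by
    intro i j hij hj
    have e : g ^ j • w = g ^ i • (g ^ (j - i) • w) := by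
      rw [smul_smul, ← pow_add, Nat.add_sub_cancel' hij.le]
    have h1 := key (j - i) (by omega) (by omega)
    have h2 := h i (by omega) j hj
    have hne : g ^ i • w ≠ g ^ j • w := by
      intro h3
      rw [e] at h3
      exact h1 (Or.inl (smul_left_cancel _ h3).symm)
    refine ⟨hne, fun h3 => ?_, fun h3 => ?_, h2.1, fun h3 => h2.2 (st_le_comm.1 h3)⟩
    · have h4 := lt_of_le_of_ne h3 hne
      rw [e, smul_lt] at h4
      exact h1 (Or.inr (Or.inr h4))
    · have h4 := lt_of_le_of_ne h3 hne.symm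
      rw [e, smul_lt] at h4
      exact h1 (Or.inr (Or.inl h4))
  have hsymm : ∀ a b : H, Crs a b → Crs b a := by
    rintro a b ⟨h1, h2, h3, h4⟩
    exact ⟨h2, h1, fun h5 => h3 (le_st_comm.1 h5), fun h5 => h4 (st_le_comm.1 h5)⟩
  have hinj : Set.InjOn (fun i : ℕ => g ^ i • w) (Finset.range (n + 1) : Set ℕ) := by
    intro i hi j hj hij
    rcases lt_trichotomy i j with h1 | h1 | h1
    · exact absurd hij (hcr i j h1 (by have := Finset.mem_range.1 (Finset.mem_coe.1 hj); omega)).1
    · exact h1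
    · exact absurd hij.symm (hcr j i h1 (by have := Finset.mem_range.1 (Finset.mem_coe.1 hi); omega)).1
  have h5 := hd ((Finset.range (n + 1)).image fun i : ℕ => g ^ i • w) (by
    intro a ha b hb hab
    obtain ⟨i, hi, rfl⟩ := Finset.mem_image.1 ha
    obtain ⟨j, hj, rfl⟩ := Finset.mem_image.1 hb
    have hi' := Finset.mem_range.1 hi
    have hj' := Finset.mem_range.1 hj
    rcases lt_trichotomy i j with h1 | h1 | h1
    · exact (hcr i j h1 (by omega)).2
    · exact absurd (by rw [h1]) hab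
    · exact hsymm _ _ (hcr j i h1 (by omega)).2)
  rw [Finset.card_image_of_injOn hinj, Finset.card_range] at h5
  omega

theorem smul_Icc (g : G) (a b : H) : Set.Icc (g • a) (g • b) = (fun k : H => g • k) '' Set.Icc a b := by
  ext k
  constructor
  · rintro ⟨h1, h2⟩
    refine ⟨g⁻¹ • k, ⟨?_, ?_⟩, smul_inv_smul g k⟩
    · rw [← smul_le (g := g), smul_inv_smul]
      exact h1
    · rw [← smul_le (g := g), smul_inv_smul]
      exact h2
  · rintro ⟨k', ⟨h1, h2⟩, rfl⟩
    exact ⟨(smul_le (g := g)).2 h1, (smul_le (g := g)).2 h2⟩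

theorem smul_Icc_ncard (g : G) (a b : H) : (Set.Icc (g • a) (g • b)).ncard = (Set.Icc a b).ncard := by
  rw [smul_Icc]
  exact Set.ncard_image_of_injective _ (MulAction.injective g)

/-- intervals are finite -/
theorem Icc_fin {H : Type} [PartialOrder H] [Bas H] (a b : H) : (Set.Icc a b).Finite := by
  refine ((Bas.fin_up a).union ((Bas.fin_up (st b)).image st)).subset ?_
  rintro k ⟨h1, h2⟩
  by_cases h3 : k ∈ (Bas.o : Set H)
  · refine Or.inr ⟨st k, ⟨st_le h2, ?_⟩, st_st k⟩
    rw [Bas.vtx.one k, not_not]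
    exact h3
  · exact Or.inl ⟨h1, h3⟩

/-- (3.3), first case -/
theorem not_le_of_type {g : G} {w w' : H} (h1 : g • w < w) (h2 : w' ≤ g • w') : ¬ w ≤ w' := by
  intro h
  have h3 : w < g⁻¹ • w := lt_inv_iff.2 h1
  have h4 : g⁻¹ • w' ≤ w' := by
    rw [← smul_le (g := g), smul_inv_smul]
    exact h2
  have h5 : Set.Icc (g⁻¹ • w) (g⁻¹ • w') ⊂ Set.Icc w w' := by
    refine ⟨fun k hk => ⟨h3.le.trans hk.1, hk.2.trans h4⟩, fun hk => ?_⟩
    have := hk (show w ∈ Set.Icc w w' from ⟨le_rfl, h⟩)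
    exact absurd (this.1) h3.not_ge
  have h6 := Set.ncard_lt_ncard h5 (Icc_fin _ _)
  rw [smul_Icc_ncard] at h6
  exact lt_irrefl _ h6

/-- (3.3), second case -/
theorem not_ge_of_type {g : G} {w w' : H} (h1 : g • w < w) (h2 : w' ≤ g • w') : ¬ w' ≤ w := by
  intro h
  have h5 : Set.Icc (g • w') (g • w) ⊂ Set.Icc w' w := by
    refine ⟨fun k hk => ⟨h2.trans hk.1, hk.2.trans h1.le⟩, fun hk => ?_⟩
    have := hk (show w ∈ Set.Icc w' w from ⟨h, le_rfl⟩)
    exact absurd (this.2) h1.not_ge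
  have h6 := Set.ncard_lt_ncard h5 (Icc_fin _ _)
  rw [smul_Icc_ncard] at h6
  exact lt_irrefl _ h6

/-- (3.4) comparable half-spaces have the same type -/
theorem type_lt_iff {g : G} {w w' : H} (ht : Tri g w) (ht' : Tri g w')
    (hc : w ≤ w' ∨ w' ≤ w) : g • w < w ↔ g • w' < w' := by
  have key : ∀ a b : H, (a ≤ b ∨ b ≤ a) → Tri g b → g • a < a → g • b < b := by
    intro a b hab hb ha
    rcases hb with h | h | h
    · rcases hab with h1 | h1
      · exact absurd h1 (not_le_of_type ha h.ge)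
      · exact absurd h1 (not_ge_of_type ha h.ge)
    · exact h
    · rcases hab with h1 | h1
      · exact absurd h1 (not_le_of_type ha h.le)
      · exact absurd h1 (not_ge_of_type ha h.le)
  exact ⟨key w w' hc ht', key w' w hc.symm ht⟩

theorem type_gt_iff {g : G} {w w' : H} (ht : Tri g w) (ht' : Tri g w')
    (hc : w ≤ w' ∨ w' ≤ w) : w < g • w ↔ w' < g • w' := by
  rw [← inv_lt_iff, ← inv_lt_iff]
  exact type_lt_iff ht.inv ht'.inv hc

/-- half-spaces of different types are not comparable -/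
theorem not_comparable {g : G} {w w' : H} (h1 : g • w < w) (h2 : w' ≤ g • w') :
    ¬ w ≤ w' ∧ ¬ w' ≤ w :=
  ⟨not_le_of_type h1 h2, not_ge_of_type h1 h2⟩

end Pool.Agent.H25.CN
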