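import Pool.Agent.H25.CN.Bdo

/-!
# H25 CN, Wrd: words with exponent sums zero, commutation (CCC (3.7), (3.9), (3.10))

`Lo P y T K`: `T` is a symmetric set of near symmetries at `y`, everything is defined for products of `K` elements. `Bal S m γ`: `γ` is a
product of at most `m` letters from `S` with all exponent sums zero. `zero_type`: (3.7). `commute_main`: (3.9). `finite_main`: (3.10).
-/

set_option autoImplicit false

namespace Pool.Agent.H25.CN

open Pool.Agent.H37.CC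
open scoped Pointwise

variable {G H : Type} [Group G] [PartialOrder H] [Bas H] [MulAction G H] [BAct G H]

/-- `T` is a symmetric set of near symmetries of the region `P` at `y` -/
structure Lo (P : Set (Vtx H) × Set H) (y : Vtx H) (T : Set G) (K : ℕ) : Prop where
  one : (1 : G) ∈ T
  inv : ∀ t ∈ T, t⁻¹ ∈ T
  pt : ∀ γ ∈ T ^ K, γ • y ∈ P.1
  mv : ∀ t ∈ T, ∀ w ∈ P.2, (∃ α ∈ T ^ K, Spt w y (α • y)) → t • w ∈ P.2

/-- products of at most `m` letters with exponent sums zero -/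
def Bal {G : Type} [Group G] (S : Set G) (m : ℕ) (γ : G) : Prop :=
  ∃ l : List G, (∀ x ∈ l, x ∈ S) ∧ l.length ≤ m ∧ l.prod = γ ∧ ∀ f : G → ℤ, (∀ x ∈ S, f x⁻¹ = - f x) → (l.map f).sum = 0

section bal

variable {G : Type} [Group G] {S : Set G}

theorem Bal.one : Bal S 0 (1 : G) :=
  ⟨[], fun _ h => absurd h List.not_mem_nil, le_rfl, List.prod_nil, fun _ _ => rfl⟩

theorem Bal.mul {m m' : ℕ} {γ γ' : G} (h : Bal S m γ) (h' : Bal S m' γ') : Bal S (m + m') (γ * γ') := by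
  obtain ⟨l, h1, h2, rfl, h4⟩ := h
  obtain ⟨l', h1', h2', rfl, h4'⟩ := h'
  refine ⟨l ++ l', fun x hx => ?_, ?_, List.prod_append, fun f hf => ?_⟩
  · rcases List.mem_append.1 hx with h | h
    · exact h1 x h
    · exact h1' x h
  · rw [List.length_append]
    omega
  · rw [List.map_append, List.sum_append, h4 f hf, h4' f hf, add_zero]

theorem Bal.mono {m m' : ℕ} (hm : m ≤ m') {γ : G} (h : Bal S m γ) : Bal S m' γ := by
  obtain ⟨l, h1, h2, h3, h4⟩ := h
  exact ⟨l, h1, h2.trans hm, h3, h4⟩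

theorem Bal.pow {m : ℕ} {γ : G} (h : Bal S m γ) (k : ℕ) : Bal S (m * k) (γ ^ k) := by
  induction k with
  | zero =>
    rw [mul_zero, pow_zero]
    exact Bal.one
  | succ k ih =>
    rw [pow_succ, mul_add, mul_one]
    exact ih.mul h

theorem Bal.inv (hS : ∀ x ∈ S, x⁻¹ ∈ S) {m : ℕ} {γ : G} (h : Bal S m γ) : Bal S m γ⁻¹ := by
  obtain ⟨l, h1, h2, rfl, h4⟩ := h
  refine ⟨(l.map (·⁻¹)).reverse, fun x hx => ?_, ?_, ?_, fun f hf => ?_⟩
  · rw [List.mem_reverse, List.mem_map] at hx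
    obtain ⟨z, hz, rfl⟩ := hx
    exact hS z (h1 z hz)
  · rw [List.length_reverse, List.length_map]
    exact h2
  · rw [List.prod_inv_reverse]
  · have e1 : ∀ k : List G, (∀ x ∈ k, x ∈ S) → ((k.map (·⁻¹)).map f).sum = - (k.map f).sum := by
      intro k
      induction k with
      | nil => exact fun _ => by simp
      | cons a k ih =>
        intro hk
        rw [List.map_cons, List.map_cons, List.sum_cons, List.map_cons, List.sum_cons,
          ih fun x hx => hk x (List.mem_cons_of_mem _ hx), hf a (hk a List.mem_cons_self)]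
        ring
    rw [List.map_reverse, List.sum_reverse, e1 l h1, h4 f hf, neg_zero]

theorem Bal.set_pow {T : Set G} {m : ℕ} (h : ∀ γ ∈ T, Bal S m γ) (k : ℕ) : ∀ γ ∈ T ^ k, Bal S (m * k) γ := by
  induction k with
  | zero =>
    intro γ hγ
    rw [pow_zero, Set.mem_one] at hγ
    rw [hγ, mul_zero]
    exact Bal.one
  | succ k ih =>
    intro γ hγ
    rw [pow_succ] at hγ
    obtain ⟨a, ha, b, hb, rfl⟩ := Set.mem_mul.1 hγ
    rw [mul_add, mul_one]
    exact (ih a ha).mul (h b hb)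

theorem list_prod_mem {T : Set G} (h1 : (1 : G) ∈ T) {p : ℕ} (hS : ∀ x ∈ S, x ∈ T ^ p) (l : List G) (hl : ∀ x ∈ l, x ∈ S) :
    l.prod ∈ T ^ (p * l.length) := by
  induction l with
  | nil =>
    rw [List.prod_nil, List.length_nil, mul_zero, pow_zero]
    exact Set.one_mem_one
  | cons a l ih =>
    rw [List.prod_cons, List.length_cons, mul_add, mul_one, add_comm, pow_add]
    exact Set.mul_mem_mul (hS a (hl a List.mem_cons_self)) (ih fun x hx => hl x (List.mem_cons_of_mem _ hx))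

theorem Bal.mem {T : Set G} (h1 : (1 : G) ∈ T) {p : ℕ} (hS : ∀ x ∈ S, x ∈ T ^ p) {m : ℕ} {γ : G} (h : Bal S m γ) :
    γ ∈ T ^ (p * m) := by
  obtain ⟨l, h2, h3, rfl, -⟩ := h
  exact Set.pow_subset_pow_right h1 (Nat.mul_le_mul_left p h3) (list_prod_mem h1 hS l h2)

end bal

section local_

variable {P : Set (Vtx H) × Set H} {y : Vtx H} {T : Set G} {K n : ℕ}

theorem Lo.mono (hL : Lo P y T K) {i j : ℕ} (h : i ≤ j) {γ : G} (hγ : γ ∈ T ^ i) : γ ∈ T ^ j :=
  Set.pow_subset_pow_right hL.one h hγ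

theorem Lo.inv_mem (hL : Lo P y T K) {i : ℕ} {γ : G} (hγ : γ ∈ T ^ i) : γ⁻¹ ∈ T ^ i := by
  have hTi : T⁻¹ = T := by
    ext t
    rw [Set.mem_inv]
    exact ⟨fun h => by have := hL.inv _ h; rwa [inv_inv] at this, fun h => hL.inv _ h⟩
  rw [← hTi, inv_pow, Set.mem_inv, inv_inv]
  exact hγ

theorem Lo.pow_mem (hL : Lo P y T K) {m : ℕ} {γ : G} (hγ : γ ∈ T ^ m) (i : ℕ) : γ ^ i ∈ T ^ (m * i) := by
  rw [pow_mul]
  exact Set.pow_mem_pow hγ

theorem Lo.base (hL : Lo P y T K) : y ∈ P.1 := by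
  have := hL.pt 1 (hL.mono (Nat.zero_le K) (by rw [pow_zero]; exact Set.one_mem_one))
  rwa [one_smul] at this

theorem Lo.smul (hL : Lo P y T K) {k : ℕ} {α β : G} (hα : α ∈ T ^ k) (hβ : β ∈ T ^ k) {w : H} (hw : w ∈ P.2)
    (hs : Spt w (α • y) (β • y)) (m : ℕ) (hm : m + k ≤ K) : ∀ γ ∈ T ^ m, γ • w ∈ P.2 := by
  induction m with
  | zero =>
    intro γ hγ
    rw [pow_zero, Set.mem_one] at hγ
    rwa [hγ, one_smul]
  | succ m ih =>
    intro γ hγ
    rw [pow_succ'] at hγ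
    obtain ⟨t, ht, δ, hδ, rfl⟩ := Set.mem_mul.1 hγ
    have h1 := ih (by omega) δ hδ
    have h2 : Spt (δ • w) ((δ * α) • y) ((δ * β) • y) := by
      rw [mul_smul, mul_smul, spt_smul]
      exact hs
    have hδα : δ * α ∈ T ^ K := hL.mono (show m + k ≤ K by omega) (by rw [pow_add]; exact Set.mul_mem_mul hδ hα)
    have hδβ : δ * β ∈ T ^ K := hL.mono (show m + k ≤ K by omega) (by rw [pow_add]; exact Set.mul_mem_mul hδ hβ)
    rw [mul_smul]
    refine hL.mv t ht _ h1 ?_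
    by_cases h3 : Spt (δ • w) y ((δ * α) • y)
    · exact ⟨_, hδα, h3⟩
    · refine ⟨_, hδβ, ?_⟩
      unfold Spt at h2 h3 ⊢
      rw [not_not] at h3
      rwa [h3]

theorem Lo.tri (hL : Lo P y T K) (hP : Rgn P) (hd : Dim H n) {k m : ℕ} {α β γ : G} (hα : α ∈ T ^ k) (hβ : β ∈ T ^ k) {w : H}
    (hw : w ∈ P.2) (hs : Spt w (α • y) (β • y)) (hγ : γ ∈ T ^ m) (hm : n * m + k ≤ K) : Tri (γ ^ n.factorial) w := by
  have h1 : ∀ i ≤ n, γ ^ i • w ∈ P.2 := by
    intro i hi
    refine hL.smul hα hβ hw hs (m * i) ?_ _ (hL.pow_mem hγ i)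
    have : m * i ≤ n * m := by
      rw [mul_comm]
      exact Nat.mul_le_mul_right m hi
    omega
  exact pow_type hd fun i hi j hj => hP.nf _ (h1 i hi) _ (h1 j hj)

/-- the letters preserve the signed number of half-spaces -/
theorem Lo.nu_letter (hL : Lo P y T K) (hP : Rgn P) (hd : Dim H n) {m k : ℕ} {γ h δ : G} (hγ : γ ∈ T ^ m) (hh : h ∈ T)
    (hδ : δ ∈ T ^ k) (hK : n * m + (n.factorial + k) + n ≤ K) :
    nu P.2 (γ ^ n.factorial) (h ^ n.factorial • y) (h ^ n.factorial • δ • y) = nu P.2 (γ ^ n.factorial) y (δ • y) := by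
  have h1 : (1 : G) ∈ T ^ k := hL.mono (Nat.zero_le k) (by rw [pow_zero]; exact Set.one_mem_one)
  have hx : h ^ n.factorial ∈ T ^ n.factorial := Set.pow_mem_pow hh
  have hyδ : δ • y ∈ P.1 := hL.pt δ (hL.mono (by omega) hδ)
  refine nu_map hP hL.base hyδ fun w hw hs => ?_
  have hs' : Spt w ((1 : G) • y) (δ • y) := by rwa [one_smul]
  have h2 : h ^ n.factorial • w ∈ P.2 := hL.smul h1 hδ hw hs' n.factorial (by omega) _ hx
  refine ⟨h2, ?_⟩
  have h3 : Tri (γ ^ n.factorial) w := hL.tri hP hd h1 hδ hw hs' hγ (by omega)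
  have h4 : Tri (γ ^ n.factorial) (h ^ n.factorial • w) := by
    refine hL.tri hP hd (k := n.factorial + k) (α := h ^ n.factorial * 1) (β := h ^ n.factorial * δ) ?_ ?_ h2 ?_ hγ (by omega)
    · rw [pow_add]
      exact Set.mul_mem_mul hx h1
    · rw [pow_add]
      exact Set.mul_mem_mul hx hδ
    · rw [mul_smul, mul_smul, spt_smul]
      exact hs'
  have h5 : Tri (h ^ n.factorial) w := hL.tri hP hd h1 hδ hw hs' (m := 1) (by rw [pow_one]; exact hh) (by omega)
  exact type_lt_iff h3 h4 h5.comparable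

theorem Lo.nu_list (hL : Lo P y T K) (hP : Rgn P) (hd : Dim H n) {S : Set G} (hS : ∀ x ∈ S, ∃ h ∈ T, x = h ^ n.factorial)
    {m : ℕ} {γ : G} (hγ : γ ∈ T ^ m) (l : List G) (hl : ∀ x ∈ l, x ∈ S)
    (hK : n * m + n.factorial * l.length + n + n.factorial ≤ K) :
    nu P.2 (γ ^ n.factorial) y (l.prod • y) = (l.map fun x => nu P.2 (γ ^ n.factorial) y (x • y)).sum := by
  have hS' : ∀ x ∈ S, x ∈ T ^ n.factorial := by
    intro x hx
    obtain ⟨h, hh, rfl⟩ := hS x hx
    exact Set.pow_mem_pow hh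
  induction l with
  | nil => rw [List.prod_nil, one_smul, nu_self, List.map_nil, List.sum_nil]
  | cons a l ih =>
    obtain ⟨h, hh, rfl⟩ := hS a (hl a List.mem_cons_self)
    have hl' : ∀ x ∈ l, x ∈ S := fun x hx => hl x (List.mem_cons_of_mem _ hx)
    rw [List.length_cons, mul_add, mul_one] at hK
    have hδ : l.prod ∈ T ^ (n.factorial * l.length) := list_prod_mem hL.one hS' l hl'
    rw [List.prod_cons, mul_smul, List.map_cons, List.sum_cons, ← ih hl' (by omega),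
      ← nu_add _ _ y (h ^ n.factorial • y) _, hL.nu_letter hP hd hγ hh hδ (by omega)]

/-- (3.7) -/
theorem Lo.zero_type (hL : Lo P y T K) (hP : Rgn P) (hd : Dim H n) {S : Set G} (hS : ∀ x ∈ S, ∃ h ∈ T, x = h ^ n.factorial)
    {M : ℕ} {γ : G} (hb : Bal S M γ)
    (hK : n * (n.factorial * M) + n.factorial * (M * n.factorial) + n + 3 * n.factorial ≤ K) {w : H} (hw : w ∈ P.2) :
    ¬ γ ^ n.factorial • w < w := by
  intro hlt
  have hS' : ∀ x ∈ S, x ∈ T ^ n.factorial := by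
    intro x hx
    obtain ⟨h, hh, rfl⟩ := hS x hx
    exact Set.pow_mem_pow hh
  have hγ : γ ∈ T ^ (n.factorial * M) := hb.mem hL.one hS'
  have hg : Bal S (M * n.factorial) (γ ^ n.factorial) := hb.pow _
  have hgm : γ ^ n.factorial ∈ T ^ (n.factorial * (M * n.factorial)) := hg.mem hL.one hS'
  have hgy : γ ^ n.factorial • y ∈ P.1 := hL.pt _ (hL.mono (by omega) hgm)
  have h1 := nu_pos hP hL.base hgy hw hlt
  obtain ⟨l, hl1, hl2, hl3, hl4⟩ := hg
  have h2 : nu P.2 (γ ^ n.factorial) y (l.prod • y) = 0 := by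
    rw [hL.nu_list hP hd hS hγ l hl1]
    · refine hl4 _ fun x hx => ?_
      obtain ⟨h, hh, rfl⟩ := hS x hx
      have h3 : (h ^ n.factorial)⁻¹ ∈ T ^ n.factorial := hL.inv_mem (Set.pow_mem_pow hh)
      have h4 := hL.nu_letter hP hd hγ hh h3 (by omega)
      rw [← h4, smul_inv_smul]
      exact nu_symm _ _ _ _
    · have : n.factorial * l.length ≤ n.factorial * (M * n.factorial) := Nat.mul_le_mul_left _ hl2
      omega
  rw [hl3] at h2
  omega

/-- local half-spaces are fixed or crossed -/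
theorem Lo.fix_or_crs (hL : Lo P y T K) (hP : Rgn P) {m k : ℕ} {α γ : G} (hα : α ∈ T ^ k) {w : H} (hw : w ∈ P.2)
    (hs : Spt w y (α • y)) (hγ : γ ∈ T ^ m) (hm : m + k ≤ K) (h1 : ¬ γ • w < w) (h2 : ¬ γ⁻¹ • w < w) :
    γ • w = w ∨ Crs w (γ • w) := by
  have h1' : (1 : G) ∈ T ^ k := hL.mono (Nat.zero_le k) (by rw [pow_zero]; exact Set.one_mem_one)
  have h3 : γ • w ∈ P.2 := hL.smul h1' hα hw (by rwa [one_smul]) m hm γ hγ
  by_cases h4 : γ • w = w
  · exact Or.inl h4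
  · refine Or.inr ⟨fun h5 => ?_, fun h5 => ?_, (hP.nf _ hw _ h3).1, fun h5 => (hP.nf _ hw _ h3).2 (st_le_comm.1 h5)⟩
    · exact h2 (inv_lt_iff.2 (lt_of_le_of_ne h5 (Ne.symm h4)))
    · exact h1 (lt_of_le_of_ne h5 h4)

/-- (3.10) -/
theorem finite_main (hL : Lo P y T K) (hP : Rgn P) {N : ℕ} (hd : Dim H n) (hN : BF G H N) (hK : 2 * n + 1 ≤ K)
    (ho : ∀ γ ∈ T ^ (2 * n), IsOfFinOrder γ) : ((Subgroup.closure T : Subgroup G) : Set G).encard ≤ N := by
  refine bdo hP hd hN hL.base hL.one hL.inv (fun t ht => hL.pt t (hL.mono (show 1 ≤ K by omega) (by rw [pow_one]; exact ht)))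
    fun w hw hs γ hγ => ?_
  obtain ⟨t, ht, hs⟩ := hs
  refine hL.fix_or_crs hP (k := 1) (by rw [pow_one]; exact ht) hw hs hγ hK ?_ ?_
  · exact fun h => infinite_order h (ho γ hγ)
  · exact fun h => infinite_order h (ho γ⁻¹ (hL.inv_mem hγ))

end local_

/-- the number of factors which are used in `commute_main` -/
def K0 (n N : ℕ) : ℕ :=
  n * (n.factorial * ((2 * N + 2) * (2 * n))) + n.factorial * (((2 * N + 2) * (2 * n)) * n.factorial) + n + 3 * n.factorial +
    n.factorial * ((2 * N + 2) * (2 * n)) + n.factorial * (2 * N + 2)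

/-- (3.9) -/
theorem commute_main {P : Set (Vtx H) × Set H} {y : Vtx H} {T : Set G} {K n N : ℕ} (hL : Lo P y T K) (hP : Rgn P) (hd : Dim H n)
    (hN : BF G H N) (hK : K0 n N ≤ K) {a b : G} (ha : a ∈ T) (hb : b ∈ T) :
    Commute (a ^ (n.factorial * N.factorial)) (b ^ (n.factorial * N.factorial)) := by
  classical
  obtain ⟨A, hA⟩ : ∃ A, A = a ^ n.factorial := ⟨_, rfl⟩
  obtain ⟨B, hB⟩ : ∃ B, B = b ^ n.factorial := ⟨_, rfl⟩
  set S : Set G := {A, A⁻¹, B, B⁻¹} with hSdef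
  have hAS : A ∈ S := Or.inl rfl
  have hAiS : A⁻¹ ∈ S := Or.inr (Or.inl rfl)
  have hBS : B ∈ S := Or.inr (Or.inr (Or.inl rfl))
  have hBiS : B⁻¹ ∈ S := Or.inr (Or.inr (Or.inr rfl))
  have hS : ∀ x ∈ S, ∃ h ∈ T, x = h ^ n.factorial := by
    rintro x (rfl | rfl | rfl | rfl)
    · exact ⟨a, ha, hA⟩
    · exact ⟨a⁻¹, hL.inv a ha, by rw [hA, inv_pow]⟩
    · exact ⟨b, hb, hB⟩
    · exact ⟨b⁻¹, hL.inv b hb, by rw [hB, inv_pow]⟩
  have hSi : ∀ x ∈ S, x⁻¹ ∈ S := by
    rintro x (rfl | rfl | rfl | rfl)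
    · exact hAiS
    · rw [inv_inv]
      exact hAS
    · exact hBiS
    · rw [inv_inv]
      exact hBS
  have hS' : ∀ x ∈ S, x ∈ T ^ n.factorial := by
    intro x hx
    obtain ⟨h, hh, rfl⟩ := hS x hx
    exact Set.pow_mem_pow hh
  set e : ℕ → G := fun j => A ^ j * B * (A⁻¹) ^ j * B⁻¹ with he
  have hbal : ∀ j ≤ N, Bal S (2 * N + 2) (e j) := by
    intro j hj
    refine ⟨List.replicate j A ++ [B] ++ List.replicate j A⁻¹ ++ [B⁻¹], ?_, ?_, ?_, ?_⟩
    · intro x hx
      simp only [List.mem_append, List.mem_replicate, List.mem_singleton] at hx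
      rcases hx with ((⟨-, rfl⟩ | rfl) | ⟨-, rfl⟩) | rfl
      · exact hAS
      · exact hBS
      · exact hAiS
      · exact hBiS
    · simp only [List.length_append, List.length_replicate, List.length_singleton]
      omega
    · simp only [List.prod_append, List.prod_replicate, List.prod_singleton]
      rfl
    · intro f hf
      simp only [List.map_append, List.map_replicate, List.map_singleton, List.sum_append, List.sum_replicate,
        List.sum_singleton, hf A hAS, hf B hBS]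
      simp only [nsmul_eq_mul]
      ring
  set T0 : Set G := {γ | ∃ j ≤ N, γ = e j ∨ γ = (e j)⁻¹} with hT0
  have hT0bal : ∀ γ ∈ T0, Bal S (2 * N + 2) γ := by
    rintro γ ⟨j, hj, rfl | rfl⟩
    · exact hbal j hj
    · exact (hbal j hj).inv hSi
  have h1 : (1 : G) ∈ T0 := by
    refine ⟨0, Nat.zero_le N, Or.inl ?_⟩
    show 1 = A ^ 0 * B * (A⁻¹) ^ 0 * B⁻¹
    rw [pow_zero, pow_zero, one_mul, mul_one, mul_inv_cancel]
  have hi : ∀ t ∈ T0, t⁻¹ ∈ T0 := by
    rintro γ ⟨j, hj, rfl | rfl⟩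
    · exact ⟨j, hj, Or.inr rfl⟩
    · exact ⟨j, hj, Or.inl (inv_inv _)⟩
  have hle : n.factorial * (2 * N + 2) ≤ K := by
    unfold K0 at hK
    omega
  have hcl : ((Subgroup.closure T0 : Subgroup G) : Set G).encard ≤ N := by
    refine bdo hP hd hN hL.base h1 hi (fun t ht => hL.pt t (hL.mono hle ((hT0bal t ht).mem hL.one hS'))) ?_
    rintro w hw ⟨t, ht, hs⟩ γ hγ
    have hbγ : Bal S ((2 * N + 2) * (2 * n)) γ := Bal.set_pow hT0bal (2 * n) γ hγ
    refine hL.fix_or_crs hP ((hT0bal t ht).mem hL.one hS') hw hs (hbγ.mem hL.one hS') ?_ ?_ ?_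
    · unfold K0 at hK
      omega
    · intro h2
      refine hL.zero_type hP hd hS hbγ ?_ hw (lt_pow h2 (Nat.factorial_pos n))
      unfold K0 at hK
      omega
    · intro h2
      refine hL.zero_type hP hd hS (hbγ.inv hSi) ?_ hw (lt_pow h2 (Nat.factorial_pos n))
      unfold K0 at hK
      omega
  obtain ⟨i, j, hij, hjN, hee⟩ : ∃ i j, i < j ∧ j ≤ N ∧ e i = e j := by
    by_contra hcon
    push Not at hcon
    have hinj : Set.InjOn e (Finset.range (N + 1) : Set ℕ) := by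
      intro i hi' j hj' hij
      have hi'' := Finset.mem_range.1 (Finset.mem_coe.1 hi')
      have hj'' := Finset.mem_range.1 (Finset.mem_coe.1 hj')
      rcases lt_trichotomy i j with h | h | h
      · exact absurd hij (hcon i j h (by omega))
      · exact h
      · exact absurd hij.symm (hcon j i h (by omega))
    have h2 : (e '' (Finset.range (N + 1) : Set ℕ)).encard ≤ N := by
      refine le_trans (Set.encard_le_encard ?_) hcl
      rintro _ ⟨i, hi', rfl⟩
      have hi'' := Finset.mem_range.1 (Finset.mem_coe.1 hi')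
      exact Subgroup.subset_closure ⟨i, by omega, Or.inl rfl⟩
    rw [hinj.encard_image, Set.encard_coe_eq_coe_finsetCard, Finset.card_range] at h2
    have h3 : N + 1 ≤ N := by exact_mod_cast h2
    omega
  have hcomm : Commute (A ^ (j - i)) B := by
    have h2 : A ^ i * B * (A⁻¹) ^ i = A ^ j * B * (A⁻¹) ^ j := mul_right_cancel hee
    have h3 : A ^ j = A ^ i * A ^ (j - i) := by rw [← pow_add, Nat.add_sub_cancel' hij.le]
    have h4 : (A⁻¹) ^ j = (A⁻¹) ^ (j - i) * (A⁻¹) ^ i := by rw [← pow_add, Nat.sub_add_cancel hij.le]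
    rw [h3, h4] at h2
    have h5 : B = A ^ (j - i) * B * (A⁻¹) ^ (j - i) := by
      have h6 : A ^ i * B * (A⁻¹) ^ i = A ^ i * (A ^ (j - i) * B * (A⁻¹) ^ (j - i)) * (A⁻¹) ^ i := by
        rw [h2]
        simp only [mul_assoc]
      exact mul_left_cancel (mul_right_cancel h6)
    show A ^ (j - i) * B = B * A ^ (j - i)
    conv_rhs => rw [h5]
    rw [inv_pow, inv_mul_cancel_right]
  obtain ⟨c, hc⟩ := Nat.dvd_factorial (show 0 < j - i by omega) (show j - i ≤ N by omega)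
  rw [pow_mul, pow_mul, ← hA, ← hB]
  refine Commute.pow_right ?_ _
  rw [hc, pow_mul]
  exact hcomm.pow_left c

end Pool.Agent.H25.CN
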