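import Pool.Agent.H25.CN.Bdo2

/-!
# H25 CN, Wrd2: commutation for acylindrical actions (CCA (3.9), (3.10))

`deep_wall`: if some `γ ∈ T` has unbounded orbits then some half-space `w1 ∉ y.U` between `y` and `γ^{±1} y` is made smaller by an element `E` of
`T ^ n!`. `commute2`: the group generated by the commutators `e_j` has a bounded orbit and fixes or crosses `E ^ i w1`, so it has at most
`(2 n)! N` elements (`card_le`). `ell2`: without elements with unbounded orbits the group generated by `T` has a bounded orbit.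
-/

set_option autoImplicit false

namespace Pool.Agent.H25.CN

open Pool.Agent.H37.CC Pool.Agent.H37.CD
open scoped Pointwise

section words

variable {G : Type} [Group G]

/-- the commutators -/
def ej (A B : G) (j : ℕ) : G := A ^ j * B * (A⁻¹) ^ j * B⁻¹

/-- the commutators and their inverses -/
def T0 (A B : G) (N : ℕ) : Set G := {γ | ∃ j ≤ N, γ = ej A B j ∨ γ = (ej A B j)⁻¹}

theorem ej_bal {A B : G} {S : Set G} (hA : A ∈ S) (hAi : A⁻¹ ∈ S) (hB : B ∈ S) (hBi : B⁻¹ ∈ S) {N : ℕ} :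
    ∀ j ≤ N, Bal S (2 * N + 2) (ej A B j) := by
  intro j hj
  refine ⟨List.replicate j A ++ [B] ++ List.replicate j A⁻¹ ++ [B⁻¹], ?_, ?_, ?_, ?_⟩
  · intro x hx
    simp only [List.mem_append, List.mem_replicate, List.mem_singleton] at hx
    rcases hx with ((⟨-, rfl⟩ | rfl) | ⟨-, rfl⟩) | rfl
    · exact hA
    · exact hB
    · exact hAi
    · exact hBi
  · simp only [List.length_append, List.length_replicate, List.length_singleton]
    omega
  · simp only [List.prod_append, List.prod_replicate, List.prod_singleton]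
    rfl
  · intro f hf
    simp only [List.map_append, List.map_replicate, List.map_singleton, List.sum_append, List.sum_replicate,
      List.sum_singleton, hf A hA, hf B hB]
    simp only [nsmul_eq_mul]
    ring

theorem T0_bal {A B : G} {S : Set G} (hS : ∀ x ∈ S, x⁻¹ ∈ S) (hA : A ∈ S) (hB : B ∈ S) {N : ℕ} :
    ∀ γ ∈ T0 A B N, Bal S (2 * N + 2) γ := by
  rintro γ ⟨j, hj, rfl | rfl⟩
  · exact ej_bal hA (hS A hA) hB (hS B hB) j hj
  · exact (ej_bal hA (hS A hA) hB (hS B hB) j hj).inv hS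

theorem T0_one {A B : G} {N : ℕ} : (1 : G) ∈ T0 A B N := by
  refine ⟨0, Nat.zero_le N, Or.inl ?_⟩
  show 1 = A ^ 0 * B * (A⁻¹) ^ 0 * B⁻¹
  rw [pow_zero, pow_zero, one_mul, mul_one, mul_inv_cancel]

theorem T0_inv {A B : G} {N : ℕ} : ∀ t ∈ T0 A B N, t⁻¹ ∈ T0 A B N := by
  rintro γ ⟨j, hj, rfl | rfl⟩
  · exact ⟨j, hj, Or.inr rfl⟩
  · exact ⟨j, hj, Or.inl (inv_inv _)⟩

theorem T0_card {A B : G} {N : ℕ} : ∃ F : Finset G, T0 A B N ⊆ F ∧ F.card ≤ 2 * (N + 1) := by
  classical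
  refine ⟨(Finset.range (N + 1)).image (ej A B) ∪ (Finset.range (N + 1)).image fun j => (ej A B j)⁻¹, ?_, ?_⟩
  · rintro γ ⟨j, hj, rfl | rfl⟩
    · exact Finset.mem_coe.2 (Finset.mem_union.2 (Or.inl (Finset.mem_image.2 ⟨j, Finset.mem_range.2 (by omega), rfl⟩)))
    · exact Finset.mem_coe.2 (Finset.mem_union.2 (Or.inr (Finset.mem_image.2 ⟨j, Finset.mem_range.2 (by omega), rfl⟩)))
  · refine (Finset.card_union_le _ _).trans ?_
    have h1 := Finset.card_image_le (s := Finset.range (N + 1)) (f := ej A B)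
    have h2 := Finset.card_image_le (s := Finset.range (N + 1)) (f := fun j => (ej A B j)⁻¹)
    rw [Finset.card_range] at h1 h2
    omega

theorem comm_of_card {A B : G} {N : ℕ} (hcl : ((Subgroup.closure (T0 A B N) : Subgroup G) : Set G).encard ≤ N) :
    Commute (A ^ N.factorial) B := by
  obtain ⟨i, j, hij, hjN, hee⟩ : ∃ i j, i < j ∧ j ≤ N ∧ ej A B i = ej A B j := by
    by_contra hcon
    push Not at hcon
    have hinj : Set.InjOn (ej A B) (Finset.range (N + 1) : Set ℕ) := by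
      intro i hi' j hj' hij
      have hi'' := Finset.mem_range.1 (Finset.mem_coe.1 hi')
      have hj'' := Finset.mem_range.1 (Finset.mem_coe.1 hj')
      rcases lt_trichotomy i j with h | h | h
      · exact absurd hij (hcon i j h (by omega))
      · exact h
      · exact absurd hij.symm (hcon j i h (by omega))
    have h2 : (ej A B '' (Finset.range (N + 1) : Set ℕ)).encard ≤ N := by
      refine le_trans (Set.encard_le_encard ?_) hcl
      rintro _ ⟨i, hi', rfl⟩
      have hi'' := Finset.mem_range.1 (Finset.mem_coe.1 hi')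
      exact Subgroup.subset_closure ⟨i, by omega, Or.inl rfl⟩
    rw [hinj.encard_image, Set.encard_coe_eq_coe_finsetCard, Finset.card_range] at h2
    have h3 : N + 1 ≤ N := by exact_mod_cast h2
    omega
  have hcomm : Commute (A ^ (j - i)) B := by
    have h2 : A ^ i * B * (A⁻¹) ^ i = A ^ j * B * (A⁻¹) ^ j := mul_right_cancel hee
    have h3 : A ^ j = A ^ i * A ^ (j - i) := by rw [← pow_add, Nat.add_sub_cancel' hij.le]
    have h4 : (A⁻¹) ^ j = (A⁻¹) ^ (j - i) * (A⁻¹) ^ i := by rw [← pow_add, Nat.sub_add_cancel hij.le]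
    rw [h3, h4] at h2
    have h5 : B = A ^ (j - i) * B * (A⁻¹) ^ (j - i) := by
      have h6 : A ^ i * B * (A⁻¹) ^ i = A ^ i * (A ^ (j - i) * B * (A⁻¹) ^ (j - i)) * (A⁻¹) ^ i := by
        rw [h2]
        simp only [mul_assoc]
      exact mul_left_cancel (mul_right_cancel h6)
    show A ^ (j - i) * B = B * A ^ (j - i)
    conv_rhs => rw [h5]
    rw [inv_pow, inv_mul_cancel_right]
  obtain ⟨c, hc⟩ := Nat.dvd_factorial (show 0 < j - i by omega) (show j - i ≤ N by omega)
  rw [hc, pow_mul]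
  exact hcomm.pow_left c

end words

variable {G H : Type} [Group G] [PartialOrder H] [Bas H] [MulAction G H] [BAct G H]
variable {P : Set (Vtx H) × Set H} {y : Vtx H} {T : Set G} {K n : ℕ}

theorem Lo.ds_pow {D : ℕ} (hD : ∀ t ∈ T, ds y (t • y) ≤ D) (m : ℕ) : ∀ γ ∈ T ^ m, ds y (γ • y) ≤ m * D := by
  induction m with
  | zero =>
    intro γ hγ
    rw [pow_zero, Set.mem_one] at hγ
    rw [hγ, one_smul, zero_mul]
    unfold ds
    rw [Set.sdiff_self, Set.ncard_empty]
  | succ m ih =>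
    intro γ hγ
    rw [pow_succ] at hγ
    obtain ⟨δ, hδ, t, ht, rfl⟩ := Set.mem_mul.1 hγ
    have h1 := ds_tri y (δ • y) ((δ * t) • y)
    rw [mul_smul, Pool.Agent.H25.CN.ds_smul] at h1
    have h2 := ih δ hδ
    have h3 := hD t ht
    rw [mul_smul, add_mul, one_mul]
    omega

/-- (3.10) for acylindrical actions -/
theorem ell2 (hL : Lo P y T K) (hP : Rgn P) (hd : Dim H n) (hK : 2 * n + 1 ≤ K)
    (ho : ∀ g ∈ T ^ (2 * n), ¬ Lx H g) : Ell H (Subgroup.closure T) := by
  refine ell_of (y := y) (bdo2 hP hd hL.base hL.one hL.inv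
    (fun t ht => hL.pt t (hL.mono (show 1 ≤ K by omega) (by rw [pow_one]; exact ht))) fun w hw hs γ hγ => ?_)
  obtain ⟨t, ht, hs⟩ := hs
  refine hL.fix_or_crs hP (k := 1) (by rw [pow_one]; exact ht) hw hs hγ hK ?_ ?_
  · exact fun h => ho γ hγ (lx_of_lt h)
  · exact fun h => ho γ⁻¹ (hL.inv_mem hγ) (lx_of_lt h)

theorem pow_zpowers {γ : G} (m : ℕ) : ∀ δ ∈ ({1, γ, γ⁻¹} : Set G) ^ m, δ ∈ Subgroup.zpowers γ := by
  induction m with
  | zero =>
    intro δ hδ
    rw [pow_zero, Set.mem_one] at hδ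
    rw [hδ]
    exact one_mem _
  | succ m ih =>
    intro δ hδ
    rw [pow_succ] at hδ
    obtain ⟨a, ha, t, ht, rfl⟩ := Set.mem_mul.1 hδ
    refine mul_mem (ih a ha) ?_
    rcases ht with rfl | rfl | rfl
    · exact one_mem _
    · exact Subgroup.mem_zpowers _
    · exact inv_mem (Subgroup.mem_zpowers _)

/-- the deep wall, first step -/
theorem deep_wall (hL : Lo P y T K) (hP : Rgn P) (hd : Dim H n) (hK : 3 * n + 1 ≤ K) {γ : G} (hγ : γ ∈ T) (hx : Lx H γ) :
    ∃ (w1 : H) (E t : G), w1 ∉ y.U ∧ w1 ∈ (t • y).U ∧ t ∈ T ∧ E ∈ T ^ n.factorial ∧ E • w1 < w1 := by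
  have hγi : γ⁻¹ ∈ T := hL.inv γ hγ
  have hT1 : ∀ t ∈ ({1, γ, γ⁻¹} : Set G), t ∈ T := by
    rintro t (rfl | rfl | rfl)
    · exact hL.one
    · exact hγ
    · exact hγi
  obtain ⟨w0, hw0, t, ht, hs, hor⟩ : ∃ w0 ∈ P.2, ∃ t ∈ T, Spt w0 y (t • y) ∧
      (γ ^ n.factorial • w0 < w0 ∨ w0 < γ ^ n.factorial • w0) := by
    by_contra hcon
    push Not at hcon
    apply hx
    have h1 := bdo2 hP hd hL.base (T := ({1, γ, γ⁻¹} : Set G)) (Or.inl rfl) ?_
      (fun t ht => hL.pt t (hL.mono (show 1 ≤ K by omega) (by rw [pow_one]; exact hT1 t ht))) ?_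
    · obtain ⟨M, hM⟩ := ell_of h1
      refine ⟨M, fun b hb => hM b ?_⟩
      have h2 : Subgroup.zpowers γ ≤ Subgroup.closure ({1, γ, γ⁻¹} : Set G) := by
        rw [Subgroup.zpowers_le]
        exact Subgroup.subset_closure (Or.inr (Or.inl rfl))
      exact h2 hb
    · rintro t (rfl | rfl | rfl)
      · rw [inv_one]
        exact Or.inl rfl
      · exact Or.inr (Or.inr rfl)
      · rw [inv_inv]
        exact Or.inr (Or.inl rfl)
    · rintro w hw ⟨t, ht, hs⟩ δ hδ
      have ht' := hT1 t ht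
      have htri : Tri (γ ^ n.factorial) w :=
        hL.tri hP hd (k := 1) (m := 1) (α := 1) (β := t) (by rw [pow_one]; exact hL.one) (by rw [pow_one]; exact ht') hw
          (by rwa [one_smul]) (by rw [pow_one]; exact hγ) (by omega)
      have hfix : γ ^ n.factorial • w = w := by
        have h2 := hcon w hw t ht' hs
        rcases htri with h3 | h3 | h3
        · exact h3
        · exact absurd h3 h2.1
        · exact absurd h3 h2.2
      have hno : ∀ δ ∈ Subgroup.zpowers γ, ¬ δ • w < w := by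
        intro δ hδ hlt
        obtain ⟨j, rfl⟩ := Subgroup.mem_zpowers_iff.1 hδ
        have h2 := lt_pow hlt (Nat.factorial_pos n)
        have h3 : (γ ^ j) ^ n.factorial = (γ ^ n.factorial) ^ j := by
          rw [← zpow_natCast, ← zpow_mul, ← zpow_natCast γ, ← zpow_mul, mul_comm]
        have h4 : (γ ^ n.factorial) ^ j ∈ MulAction.stabilizer G w :=
          zpow_mem (MulAction.mem_stabilizer_iff.2 hfix) j
        rw [h3, MulAction.mem_stabilizer_iff.1 h4] at h2
        exact lt_irrefl _ h2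
      have hδ' : δ ∈ T ^ (2 * n) := Set.pow_subset_pow_left (fun t ht => hT1 t ht) hδ
      exact hL.fix_or_crs hP (k := 1) (by rw [pow_one]; exact ht') hw hs hδ' (by omega) (hno δ (pow_zpowers _ δ hδ))
        (hno δ⁻¹ (inv_mem (pow_zpowers _ δ hδ)))
  obtain ⟨E, hE, hlt⟩ : ∃ E ∈ T ^ n.factorial, E • w0 < w0 := by
    rcases hor with h | h
    · exact ⟨_, Set.pow_mem_pow hγ, h⟩
    · exact ⟨_, hL.inv_mem (Set.pow_mem_pow hγ), inv_lt_iff.2 h⟩
  by_cases h1 : w0 ∈ y.U
  · refine ⟨st w0, E⁻¹, t, ?_, ?_, ht, hL.inv_mem hE, ?_⟩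
    · rw [y.st_mem, not_not]
      exact h1
    · rw [Vtx.st_mem]
      exact fun h2 => hs ⟨fun _ => h2, fun _ => h1⟩
    · rw [smul_st]
      have h2 : w0 < E⁻¹ • w0 := lt_inv_iff.2 hlt
      exact lt_of_le_of_ne (st_le h2.le) fun e => h2.ne (st_inj e).symm
  · refine ⟨w0, E, t, h1, ?_, ht, hE, hlt⟩
    by_contra h2
    exact hs ⟨fun h3 => absurd h3 h1, fun h3 => absurd h3 h2⟩

theorem deep_dep {E : G} {w1 : H} (h1 : w1 ∉ y.U) (hlt : E • w1 < w1) (i : ℕ) :
    E ^ i • w1 ∉ y.U ∧ i + 1 ≤ dep y (E ^ i • w1) := by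
  have hle : ∀ i : ℕ, E ^ i • w1 ≤ w1 := by
    intro i
    rcases Nat.eq_zero_or_pos i with h0 | h0
    · rw [h0, pow_zero, one_smul]
    · exact (lt_pow hlt h0).le
  have hno : ∀ i : ℕ, E ^ i • w1 ∉ y.U := fun i h2 => h1 (y.up h2 (hle i))
  refine ⟨hno i, ?_⟩
  induction i with
  | zero => exact dep_pos (hno 0)
  | succ i ih =>
    have h2 : E ^ (i + 1) • w1 < E ^ i • w1 := by
      rw [pow_succ, mul_smul, smul_lt]
      exact hlt
    have h3 := dep_lt (hno (i + 1)) h2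
    omega

/-- constants -/
def N2 (n N : ℕ) : ℕ := (2 * n).factorial * N

def M2 (n N : ℕ) : ℕ := 2 * n * (2 * (N2 n N + 1) * (n.factorial * (2 * N2 n N + 2)))

def K1 (n k N : ℕ) : ℕ :=
  K0 n (N2 n N) + n.factorial * ((2 * N2 n N + 2) * (2 * n)) + n.factorial * (k + 1) + n.factorial * (n * M2 n N) + 3 * n + 5

/-- (3.9) for acylindrical actions -/
theorem commute2 {k N D : ℕ} (hL : Lo P y T K) (hP : Rgn P) (hd : Dim H n) (hA : Acy G H k N)
    (hD : ∀ t ∈ T, ds y (t • y) ≤ D) (hx : ∃ g ∈ T, Lx H g) (hK : K1 n k N * (D + 1) ≤ K) {a b : G} (ha : a ∈ T)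
    (hb : b ∈ T) :
    Commute (a ^ (n.factorial * ((2 * n).factorial * N).factorial)) (b ^ (n.factorial * ((2 * n).factorial * N).factorial)) := by
  classical
  obtain ⟨γ, hγ, hlx⟩ := hx
  have hKs : K0 n (N2 n N) + n.factorial * ((2 * N2 n N + 2) * (2 * n)) + n.factorial * (k + 1) +
      n.factorial * (n * (M2 n N * D)) + 3 * n + 5 ≤ K := by
    refine le_trans ?_ hK
    have h1 : n.factorial * (n * (M2 n N * D)) ≤ K1 n k N * D := by
      have h2 : n.factorial * (n * M2 n N) ≤ K1 n k N := by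
        unfold K1
        omega
      calc n.factorial * (n * (M2 n N * D)) = n.factorial * (n * M2 n N) * D := by ring
        _ ≤ K1 n k N * D := Nat.mul_le_mul_right D h2
    have h3 : K1 n k N * (D + 1) = K1 n k N * D + K1 n k N := by ring
    rw [h3]
    have h4 : K0 n (N2 n N) + n.factorial * ((2 * N2 n N + 2) * (2 * n)) + n.factorial * (k + 1) + 3 * n + 5 ≤ K1 n k N := by
      unfold K1
      omega
    omega
  obtain ⟨N', hN'⟩ : ∃ N', N' = N2 n N := ⟨_, rfl⟩
  have hN'' : (2 * n).factorial * N = N' := hN'.symm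
  rw [hN'']
  have hM2 : M2 n N = 2 * n * (2 * (N' + 1) * (n.factorial * (2 * N' + 2))) := by
    rw [hN']
    rfl
  rw [← hN'] at hKs
  have hK0 : K0 n N' = n * (n.factorial * ((2 * N' + 2) * (2 * n))) + n.factorial * (((2 * N' + 2) * (2 * n)) * n.factorial) + n +
    3 * n.factorial + n.factorial * ((2 * N' + 2) * (2 * n)) + n.factorial * (2 * N' + 2) := rfl
  obtain ⟨A, hA'⟩ : ∃ A, A = a ^ n.factorial := ⟨_, rfl⟩
  obtain ⟨B, hB'⟩ : ∃ B, B = b ^ n.factorial := ⟨_, rfl⟩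
  set S : Set G := {A, A⁻¹, B, B⁻¹} with hSdef
  have hAS : A ∈ S := Or.inl rfl
  have hBS : B ∈ S := Or.inr (Or.inr (Or.inl rfl))
  have hS : ∀ x ∈ S, ∃ h ∈ T, x = h ^ n.factorial := by
    rintro x (rfl | rfl | rfl | rfl)
    · exact ⟨a, ha, hA'⟩
    · exact ⟨a⁻¹, hL.inv a ha, by rw [hA', inv_pow]⟩
    · exact ⟨b, hb, hB'⟩
    · exact ⟨b⁻¹, hL.inv b hb, by rw [hB', inv_pow]⟩
  have hSi : ∀ x ∈ S, x⁻¹ ∈ S := by
    rintro x (rfl | rfl | rfl | rfl)
    · exact Or.inr (Or.inl rfl)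
    · rw [inv_inv]
      exact hAS
    · exact Or.inr (Or.inr (Or.inr rfl))
    · rw [inv_inv]
      exact hBS
  have hS' : ∀ x ∈ S, x ∈ T ^ n.factorial := by
    intro x hx
    obtain ⟨h, hh, rfl⟩ := hS x hx
    exact Set.pow_mem_pow hh
  have hT0m : ∀ t ∈ T0 A B N', t ∈ T ^ (n.factorial * (2 * N' + 2)) := fun t ht => (T0_bal hSi hAS hBS t ht).mem hL.one hS'
  -- products of `2 n` elements fix or cross the local half-spaces
  have hfc : ∀ (m : ℕ) (α : G), α ∈ T ^ m → n.factorial * ((2 * N' + 2) * (2 * n)) + m ≤ K → ∀ w ∈ P.2, Spt w y (α • y) →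
      ∀ δ ∈ T0 A B N' ^ (2 * n), δ • w = w ∨ Crs w (δ • w) := by
    intro m α hα hm w hw hs δ hδ
    have hbδ : Bal S ((2 * N' + 2) * (2 * n)) δ := Bal.set_pow (T0_bal hSi hAS hBS) (2 * n) δ hδ
    refine hL.fix_or_crs hP hα hw hs (hbδ.mem hL.one hS') hm ?_ ?_
    · intro h2
      exact hL.zero_type hP hd hS hbδ (by omega) hw (lt_pow h2 (Nat.factorial_pos n))
    · intro h2
      exact hL.zero_type hP hd hS (hbδ.inv hSi) (by omega) hw (lt_pow h2 (Nat.factorial_pos n))
  -- the orbit is bounded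
  have hb1 := bdo2 hP hd hL.base (T0_one (A := A) (B := B) (N := N')) T0_inv (fun t ht => hL.pt t (hL.mono (by omega) (hT0m t ht)))
    (by
      rintro w hw ⟨t, ht, hs⟩
      exact hfc _ t (hT0m t ht) (by omega) w hw hs)
  have hLc : {w | w ∈ P.2 ∧ ∃ t ∈ T0 A B N', Spt w y (t • y)}.ncard ≤ 2 * (N' + 1) * (n.factorial * (2 * N' + 2) * D) := by
    obtain ⟨F, hF1, hF2⟩ := T0_card (A := A) (B := B) (N := N')
    have hfin : ∀ t : G, {w | w ∈ P.2 ∧ Spt w y (t • y)}.Finite := fun t => hP.fin2.subset fun w hw => hw.1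
    have h2 : {w | w ∈ P.2 ∧ ∃ t ∈ T0 A B N', Spt w y (t • y)} ⊆
        (((F.filter fun t => t ∈ T0 A B N').biUnion fun t => (hfin t).toFinset : Finset H) : Set H) := by
      rintro w ⟨hw, t, ht, hs⟩
      refine Finset.mem_coe.2 (Finset.mem_biUnion.2 ⟨t, Finset.mem_filter.2 ⟨hF1 ht, ht⟩, ?_⟩)
      exact (Set.Finite.mem_toFinset _).2 ⟨hw, hs⟩
    refine (Set.ncard_le_ncard h2 (Finset.finite_toSet _)).trans ?_
    rw [Set.ncard_coe_finset]
    refine (Finset.card_biUnion_le_card_mul _ _ (n.factorial * (2 * N' + 2) * D) fun t ht => ?_).trans ?_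
    · rw [← Set.ncard_eq_toFinset_card _ (hfin t)]
      exact (spt_card hP y (t • y)).trans (Lo.ds_pow hD _ t (hT0m t (Finset.mem_filter.1 ht).2))
    · exact Nat.mul_le_mul_right _ ((Finset.card_filter_le _ _).trans hF2)
  have hb2 : ∀ f ∈ Subgroup.closure (T0 A B N'), ds y (f • y) ≤ M2 n N * D := by
    intro f hf
    refine (hb1 f hf).trans ?_
    rw [hM2]
    calc 2 * n * {w | w ∈ P.2 ∧ ∃ t ∈ T0 A B N', Spt w y (t • y)}.ncard
        ≤ 2 * n * (2 * (N' + 1) * (n.factorial * (2 * N' + 2) * D)) := Nat.mul_le_mul_left _ hLc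
      _ = 2 * n * (2 * (N' + 1) * (n.factorial * (2 * N' + 2))) * D := by ring
  -- the deep wall
  obtain ⟨w1, E, t, hw1, hw1t, ht, hE, hlt⟩ := deep_wall hL hP hd (by omega) hγ hlx
  obtain ⟨i, hi⟩ : ∃ i, i = k + n * (M2 n N * D) := ⟨_, rfl⟩
  obtain ⟨hwy, hdep⟩ := deep_dep hw1 hlt i
  have hα : E ^ i * t ∈ T ^ (n.factorial * i + 1) := by
    rw [pow_succ, pow_mul]
    exact Set.mul_mem_mul (Set.pow_mem_pow hE) ht
  have hwα : E ^ i • w1 ∈ ((E ^ i * t) • y).U := by
    rw [mul_smul, smul_mem_smul]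
    exact hw1t
  have hni : n.factorial * i + 1 = n.factorial * k + n.factorial * (n * (M2 n N * D)) + 1 := by
    rw [hi]
    ring
  have hnk : n.factorial * (k + 1) = n.factorial * k + n.factorial := by ring
  have hle : n.factorial * i + 1 ≤ K := by omega
  have hαy : (E ^ i * t) • y ∈ P.1 := hL.pt _ (hL.mono hle hα)
  have hle2 : n.factorial * ((2 * N' + 2) * (2 * n)) + (n.factorial * i + 1) ≤ K := by omega
  have hcw : ∀ f ∈ Subgroup.closure (T0 A B N'), f • (E ^ i • w1) = E ^ i • w1 ∨ Crs (E ^ i • w1) (f • (E ^ i • w1)) := by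
    rcases hP.sep _ hαy _ hL.base _ hwα hwy with h2 | h2
    · refine orbit_crs hd T0_one T0_inv (hfc _ _ hα hle2 _ h2 ?_)
      exact fun e => hwy (e.2 hwα)
    · intro f hf
      have h3 := orbit_crs hd T0_one T0_inv (hfc _ _ hα hle2 _ h2 (by
        unfold Spt
        rw [Vtx.st_mem, Vtx.st_mem, not_iff_not]
        exact fun e => hwy (e.2 hwα))) f hf
      rw [smul_st] at h3
      rcases h3 with h3 | h3
      · exact Or.inl (st_inj h3)
      · exact Or.inr (crs_st h3)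
  have hcard := card_le hd hA (Subgroup.closure (T0 A B N')) y hb2 hwy hcw (by omega)
  rw [hN''] at hcard
  have hcomm := comm_of_card hcard
  rw [pow_mul, pow_mul, ← hA', ← hB']
  exact hcomm.pow_right _

end Pool.Agent.H25.CN
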